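import Mathlib
import Pool.Agent.H147R3.PE.W2

/-!
# Moments of the extension operator over anisotropic dilates, with weights in time

For `f ∈ L^q([-1,1]²)` and `l ∈ [1, L]` let `f_l(ξ₁, ξ₂) = f(ξ₁, l ξ₂)`, extended by zero, and let `E`
be the extension operator of the truncated paraboloid in `ℝ³`. For Lebesgue measure on `[1, L]`,
`0 ≤ γ < 1`, `q > 3 + γ` and `1 ≤ p < 2 / (1 + γ)` we prove

  `∫ (∫ (1 + |x₃|)^γ |E f_l(x)|^q dx)^p dl ≤ C ‖f‖_q^(p q)`.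

The condition `q > 3 + γ` cannot be relaxed, because of `f = 1`. For `γ = 0` the number of dilates with
`‖E f_l‖_q > λ ‖f‖_q` is thus at most `C λ^(-p q)`, for every `p < 2` and `q > 3`; the case `p = 1`,
`γ = 0` for bounded `f` is the earlier result on averaged dilates. The estimate is proved for all
measures `μ` with `μ(I) ≤ A |I|^α` for intervals `I`, with the ranges `0 ≤ γ < α`,
`q > 2 + 2 (1 + γ) / (1 + α)` and `1 ≤ p < (1 + α) / (1 + γ)`.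
-/

set_option autoImplicit false

namespace Pool.Agent.Results.MP_b7167f_an.DilateMoments

open MeasureTheory Set Complex
open scoped ENNReal NNReal
open Pool.Agent.H147R3

/-- The square `[-1,1]²`. -/
def Q : Set (ℝ × ℝ) := Icc (-1 : ℝ) 1 ×ˢ Icc (-1 : ℝ) 1

/-- The extension operator of the truncated paraboloid in `ℝ³`:
`E f(x) = ∫_{[-1,1]²} f(ξ) exp(2πi(ξ₁ x₁ + ξ₂ x₂ + |ξ|² x₃)) dξ`. -/
noncomputable def ext (f : ℝ × ℝ → ℂ) (x : ℝ × ℝ × ℝ) : ℂ :=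
  ∫ ξ in Q, f ξ * cexp (2 * Real.pi * I *
    ((ξ.1 * x.1 + ξ.2 * x.2.1 + (ξ.1 ^ 2 + ξ.2 ^ 2) * x.2.2 : ℝ) : ℂ))

/-- The dilate `f_l(ξ) = f(ξ₁, l ξ₂)` if this point lies in the square, and `0` otherwise. -/
noncomputable def dilate (l : ℝ) (f : ℝ × ℝ → ℂ) (ξ : ℝ × ℝ) : ℂ := Q.indicator f (ξ.1, l * ξ.2)

theorem term_bound (s q ε : ℝ) (hs : 0 < s) (hq : 2 < q) (hε : 0 < ε) (k : ℕ) (v : ℝ≥0∞)
    (hv0 : v ≤ 4) (hv : ∀ j, k = j + 1 → v ≤ ENNReal.ofReal (((2 : ℝ) ^ j) ^ (-q))) :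
    ENNReal.ofReal ((2 : ℝ) ^ k * s) ^ q * v ^ (1 + ε) ≤
      ENNReal.ofReal (s ^ q) * ENNReal.ofReal ((2 : ℝ) ^ (q * (1 + ε)) * ((2 : ℝ) ^ k) ^ (-(q * ε))) := by
  rw [ENNReal.ofReal_rpow_of_pos (by positivity), Real.mul_rpow (by positivity) hs.le,
    mul_comm ((2 ^ k : ℝ) ^ q) (s ^ q), ENNReal.ofReal_mul (by positivity), mul_assoc]
  refine mul_le_mul' le_rfl ?_
  rcases k with _ | j
  · simp only [pow_zero, Real.one_rpow, ENNReal.ofReal_one, one_mul, mul_one]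
    refine (ENNReal.rpow_le_rpow hv0 (by linarith)).trans ?_
    have : (4 : ℝ≥0∞) = ENNReal.ofReal 4 := by norm_num
    rw [this, ENNReal.ofReal_rpow_of_pos (by norm_num)]
    apply ENNReal.ofReal_le_ofReal
    rw [show (4 : ℝ) = 2 ^ (2 : ℝ) by norm_num, ← Real.rpow_mul (by norm_num)]
    apply Real.rpow_le_rpow_of_exponent_le (by norm_num)
    nlinarith
  · refine (mul_le_mul' le_rfl (ENNReal.rpow_le_rpow (hv j rfl) (by linarith))).trans ?_
    rw [ENNReal.ofReal_rpow_of_pos (by positivity), ← ENNReal.ofReal_mul (by positivity)]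
    apply ENNReal.ofReal_le_ofReal
    apply le_of_eq
    rw [← Real.rpow_natCast, ← Real.rpow_natCast, ← Real.rpow_mul (by norm_num),
      ← Real.rpow_mul (by norm_num), ← Real.rpow_mul (by norm_num),
      ← Real.rpow_mul (by norm_num), ← Real.rpow_add (by norm_num), ← Real.rpow_add (by norm_num)]
    congr 1
    push_cast
    ring

theorem T_term (q p ε : ℝ) (k : ℕ) :
    ENNReal.ofReal ((((2 : ℝ) ^ (-(ε / 2))) ^ k) ^ (-(p - 1))) *
      ((ENNReal.ofReal ((((2 : ℝ) ^ (-(ε / 2))) ^ k) ^ (-(q - 1)))) ^ p *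
        ENNReal.ofReal ((2 : ℝ) ^ (q * (1 + ε)) * ((2 : ℝ) ^ k) ^ (-(q * ε))) ^ p) =
      ENNReal.ofReal ((2 : ℝ) ^ (q * (1 + ε) * p)) *
        ENNReal.ofReal ((2 : ℝ) ^ (-(ε / 2) * (q * p + 1))) ^ k := by
  have h2 : (0 : ℝ) ≤ 2 := by norm_num
  have e0 : ∀ x y : ℝ, (((2 : ℝ) ^ x) ^ k) ^ y = 2 ^ (x * k * y) := by
    intro x y
    rw [← Real.rpow_natCast, ← Real.rpow_mul h2, ← Real.rpow_mul h2]
  have e1 : ∀ x : ℝ, ((2 : ℝ) ^ k) ^ x = 2 ^ (k * x) := by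
    intro x
    rw [← Real.rpow_natCast, ← Real.rpow_mul h2]
  have e2 : ∀ x : ℝ, ((2 : ℝ) ^ x) ^ k = 2 ^ (x * k) := by
    intro x
    rw [← Real.rpow_natCast, ← Real.rpow_mul h2]
  rw [ENNReal.ofReal_rpow_of_pos (by positivity), ENNReal.ofReal_rpow_of_pos (by positivity),
    ← ENNReal.ofReal_mul (by positivity), ← ENNReal.ofReal_mul (by positivity),
    ← ENNReal.ofReal_pow (by positivity), ← ENNReal.ofReal_mul (by positivity)]
  congr 1
  rw [e0, e0, e1, e2, ← Real.rpow_add (by norm_num), ← Real.rpow_mul h2, ← Real.rpow_mul h2,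
    ← Real.rpow_add (by norm_num), ← Real.rpow_add (by norm_num), ← Real.rpow_add (by norm_num)]
  congr 1
  ring

theorem moments_lib (α γ p q A L : ℝ) (hA : 0 ≤ A) (hα1 : α ≤ 1) (hγ0 : 0 ≤ γ) (hp : 1 < p)
    (hpα : p * (1 + γ) < 1 + α) (hq : 2 + 2 / p < q) (hL : 1 ≤ L) :
    ∃ K : ℝ≥0∞, K ≠ ⊤ ∧ ∀ μ : Measure ℝ, PE.Fro μ A α → ∀ f : ℝ × ℝ → ℂ, PE.S2 f →
      ∫⁻ l in Icc 1 L, (∫⁻ ξ : ℝ × ℝ × ℝ, PE.wt γ ξ.2.2 * ‖PE.ext (PE.dil l f) ξ‖ₑ ^ q) ^ p ∂μ ≤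
        K * (∫⁻ x, ‖f x‖ₑ ^ q) ^ p := by
  have hp0 : 0 < p := by linarith
  have hq2 : 2 < q := by
    have : 0 < 2 / p := by positivity
    linarith
  obtain ⟨K₀, hK₀, hKK⟩ := PE.levelp α γ p q A L hA hα1 hγ0 hp hpα hq hL
  set ε : ℝ := q - (2 + 2 / p) with hε
  have hε0 : 0 < ε := by linarith
  set ρ : ℝ := (2 : ℝ) ^ (-(ε / 2)) with hρ
  have hρ0 : 0 < ρ := by positivity
  have hρ1 : ρ < 1 := by
    rw [hρ]
    exact Real.rpow_lt_one_of_one_lt_of_neg (by norm_num) (by linarith)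
  set C : ℝ≥0∞ := ∑' k : ℕ, ENNReal.ofReal (ρ ^ k) with hC
  have hCt : C ≠ ⊤ := by
    rw [hC]
    simp only [ENNReal.ofReal_pow hρ0.le]
    rw [ENNReal.tsum_geometric]
    apply ENNReal.inv_ne_top.2
    rw [Ne, tsub_eq_zero_iff_le, not_le]
    exact ENNReal.ofReal_lt_one.2 hρ1
  set T : ℝ≥0∞ := ∑' k : ℕ, ENNReal.ofReal ((2 : ℝ) ^ (q * (1 + ε) * p)) *
        ENNReal.ofReal ((2 : ℝ) ^ (-(ε / 2) * (q * p + 1))) ^ k with hT
  have hTt : T ≠ ⊤ := by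
    rw [hT, ENNReal.tsum_mul_left, ENNReal.tsum_geometric]
    apply ENNReal.mul_ne_top ENNReal.ofReal_ne_top
    apply ENNReal.inv_ne_top.2
    rw [Ne, tsub_eq_zero_iff_le, not_le]
    apply ENNReal.ofReal_lt_one.2
    apply Real.rpow_lt_one_of_one_lt_of_neg (by norm_num)
    have : 0 < ε / 2 * (q * p + 1) := by positivity
    linarith
  set K₁ : ℝ≥0∞ := (C ^ (q - 1)) ^ p * C ^ (p - 1) * K₀ * T with hK₁
  have hK₁t : K₁ ≠ ⊤ := by
    rw [hK₁]
    refine ENNReal.mul_ne_top (ENNReal.mul_ne_top (ENNReal.mul_ne_top ?_ ?_) hK₀) hTt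
    · exact ENNReal.rpow_ne_top_of_nonneg hp0.le (ENNReal.rpow_ne_top_of_nonneg (by linarith) hCt)
    · exact ENNReal.rpow_ne_top_of_nonneg (by linarith) hCt
  refine ⟨K₁ + 1, by finiteness, ?_⟩
  intro μ hμ f hf
  set N : ℝ≥0∞ := ∫⁻ x, ‖f x‖ₑ ^ q with hN
  have hbb : ∀ l : ℝ, 1 ≤ l → ∀ ξ, ‖PE.ext (PE.dil l f) ξ‖ₑ ≤ ∫⁻ x, ‖f x‖ₑ := by
    intro l hl ξ
    unfold PE.ext
    refine (enorm_integral_le_lintegral_enorm _).trans ?_
    refine le_trans (le_of_eq ?_) (PE.dil_lint (fun x => ‖f x‖ₑ) hf.meas.enorm l hl)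
    apply lintegral_congr
    intro x
    have e : -I * (x.1 * ξ.1 + x.2 * ξ.2.1 + (x.1 ^ 2 + x.2 ^ 2) * ξ.2.2 : ℂ) =
        ((-(x.1 * ξ.1 + x.2 * ξ.2.1 + (x.1 ^ 2 + x.2 ^ 2) * ξ.2.2) : ℝ) : ℂ) * I := by
      push_cast
      ring
    rw [enorm_mul, ← ofReal_norm, e, Complex.norm_exp_ofReal_mul_I, ENNReal.ofReal_one, one_mul]
    rfl
  rcases eq_or_ne N ⊤ with hNt | hNt
  · rw [hNt, ENNReal.top_rpow_of_pos hp0, ENNReal.mul_top (by simp)]
    exact le_top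
  rcases eq_or_ne N 0 with hN0 | hN0
  · have h1 : ∫⁻ x, ‖f x‖ₑ = 0 := by
      rw [hN, lintegral_eq_zero_iff (hf.meas.enorm.pow_const q)] at hN0
      rw [lintegral_eq_zero_iff hf.meas.enorm]
      filter_upwards [hN0] with x hx
      simp only [Pi.zero_apply] at hx ⊢
      rw [ENNReal.rpow_eq_zero_iff_of_pos (by linarith)] at hx
      exact hx
    have h2 : ∫⁻ l in Icc 1 L, (∫⁻ ξ : ℝ × ℝ × ℝ, PE.wt γ ξ.2.2 *
        ‖PE.ext (PE.dil l f) ξ‖ₑ ^ q) ^ p ∂μ = ∫⁻ l in Icc 1 L, 0 ∂μ := by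
      apply setLIntegral_congr_fun measurableSet_Icc
      intro l hl
      simp only
      have h3 : ∀ ξ, PE.wt γ ξ.2.2 * ‖PE.ext (PE.dil l f) ξ‖ₑ ^ q = 0 := by
        intro ξ
        have := hbb l hl.1 ξ
        rw [h1, nonpos_iff_eq_zero] at this
        rw [this, ENNReal.zero_rpow_of_pos (by linarith), mul_zero]
      simp only [h3, lintegral_zero]
      rw [ENNReal.zero_rpow_of_pos hp0]
    rw [h2, lintegral_zero]
    exact zero_le
  set s : ℝ := N.toReal ^ (1 / q) with hs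
  have hNpos : 0 < N.toReal := ENNReal.toReal_pos hN0 hNt
  have hs0 : 0 < s := by positivity
  have hsq : ENNReal.ofReal (s ^ q) = N := by
    rw [hs, ← Real.rpow_mul hNpos.le, one_div_mul_cancel (by linarith), Real.rpow_one,
      ENNReal.ofReal_toReal hNt]
  have hint : ∫⁻ x, ‖f x‖ₑ ≠ ⊤ := by
    have h1 : ∫⁻ x, ‖f x‖ₑ ≤ ∫⁻ x, (PE.QQ.indicator (fun _ => 1) x + ‖f x‖ₑ ^ q) := by
      apply lintegral_mono
      intro x
      simp only
      by_cases hx : x ∈ PE.QQ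
      · rw [indicator_of_mem hx]
        rcases le_total ‖f x‖ₑ 1 with h | h
        · exact h.trans le_self_add
        · refine le_trans ?_ le_add_self
          calc ‖f x‖ₑ = ‖f x‖ₑ ^ (1 : ℝ) := (ENNReal.rpow_one _).symm
            _ ≤ ‖f x‖ₑ ^ q := ENNReal.rpow_le_rpow_of_exponent_le h (by linarith)
      · rw [hf.zero x hx]
        simp
    refine ne_top_of_le_ne_top ?_ h1
    rw [lintegral_add_right _ (hf.meas.enorm.pow_const q), lintegral_indicator PE.QQ_meas,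
      lintegral_const, Measure.restrict_apply_univ, PE.QQ_vol]
    exact ENNReal.add_ne_top.2 ⟨by simp, hNt⟩
  set W : ℕ → ℝ≥0∞ := fun k => ENNReal.ofReal ((ρ ^ k) ^ (-(q - 1))) with hW
  set V : ℕ → ℝ≥0∞ := fun k => ENNReal.ofReal ((ρ ^ k) ^ (-(p - 1))) with hV
  have hmw : Measurable fun ξ : ℝ × ℝ × ℝ => PE.wt γ ξ.2.2 :=
    (PE.wt_meas γ).comp (measurable_snd.comp measurable_snd)
  have hpcm : ∀ k, Measurable (PE.pc f s k) := fun k => (PE.pc_BS2 hf s hs0 k).meas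
  set a : ℕ → ℝ → ℝ≥0∞ := fun k l => ∫⁻ ξ : ℝ × ℝ × ℝ, PE.wt γ ξ.2.2 *
    ‖PE.ext (PE.dil l (PE.pc f s k)) ξ‖ₑ ^ q with ha
  have ham : ∀ k, Measurable (a k) := by
    intro k
    have h1 : Measurable fun z : ℝ × ℝ × ℝ × ℝ => PE.wt γ z.2.2.2 *
        ‖PE.ext (PE.dil z.1 (PE.pc f s k)) z.2‖ₑ ^ q :=
      (hmw.comp measurable_snd).mul ((PE.ext_meas (hpcm k)).enorm.pow_const q)
    exact h1.lintegral_prod_right'
  have hpt : ∀ l ∈ Icc 1 L, (∫⁻ ξ : ℝ × ℝ × ℝ, PE.wt γ ξ.2.2 *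
      ‖PE.ext (PE.dil l f) ξ‖ₑ ^ q) ^ p ≤
      (C ^ (q - 1)) ^ p * (C ^ (p - 1) * ∑' k, V k * (W k * a k l) ^ p) := by
    intro l hl
    have h1 : ∫⁻ ξ : ℝ × ℝ × ℝ, PE.wt γ ξ.2.2 * ‖PE.ext (PE.dil l f) ξ‖ₑ ^ q ≤
        C ^ (q - 1) * ∑' k, W k * a k l := by
      calc ∫⁻ ξ : ℝ × ℝ × ℝ, PE.wt γ ξ.2.2 * ‖PE.ext (PE.dil l f) ξ‖ₑ ^ q
          ≤ ∫⁻ ξ : ℝ × ℝ × ℝ, C ^ (q - 1) * ∑' k, W k * (PE.wt γ ξ.2.2 *
              ‖PE.ext (PE.dil l (PE.pc f s k)) ξ‖ₑ ^ q) := by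
            apply lintegral_mono
            intro ξ
            simp only
            calc PE.wt γ ξ.2.2 * ‖PE.ext (PE.dil l f) ξ‖ₑ ^ q
                ≤ PE.wt γ ξ.2.2 * (∑' k, ‖PE.ext (PE.dil l (PE.pc f s k)) ξ‖ₑ) ^ q :=
                  mul_le_mul' le_rfl (ENNReal.rpow_le_rpow
                    (PE.ext_sum hf hint s hs0 l hl.1 ξ) (by linarith))
              _ ≤ PE.wt γ ξ.2.2 * (C ^ (q - 1) *
                  ∑' k, W k * ‖PE.ext (PE.dil l (PE.pc f s k)) ξ‖ₑ ^ q) :=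
                  mul_le_mul' le_rfl (PE.wsum _ ρ hρ0 q (by linarith))
              _ = _ := by
                  rw [mul_left_comm, ← ENNReal.tsum_mul_left]
                  congr 2
                  ext k
                  ring
        _ = _ := by
            rw [lintegral_const_mul' _ _ (ENNReal.rpow_ne_top_of_nonneg (by linarith) hCt),
              lintegral_tsum]
            · congr 2
              ext k
              rw [lintegral_const_mul' _ _ ENNReal.ofReal_ne_top]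
            · intro k
              exact ((hmw.mul ((PE.ext_meas1 (hpcm k) l).enorm.pow_const q)).const_mul _).aemeasurable
    calc (∫⁻ ξ : ℝ × ℝ × ℝ, PE.wt γ ξ.2.2 * ‖PE.ext (PE.dil l f) ξ‖ₑ ^ q) ^ p
        ≤ (C ^ (q - 1) * ∑' k, W k * a k l) ^ p := ENNReal.rpow_le_rpow h1 hp0.le
      _ = (C ^ (q - 1)) ^ p * (∑' k, W k * a k l) ^ p := ENNReal.mul_rpow_of_nonneg _ _ hp0.le
      _ ≤ _ := mul_le_mul' le_rfl (PE.wsum _ ρ hρ0 p hp)
  have hct1 : (C ^ (q - 1)) ^ p ≠ ⊤ :=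
    ENNReal.rpow_ne_top_of_nonneg hp0.le (ENNReal.rpow_ne_top_of_nonneg (by linarith) hCt)
  have hct2 : C ^ (p - 1) ≠ ⊤ := ENNReal.rpow_ne_top_of_nonneg (by linarith) hCt
  have hlev : ∀ k, ∫⁻ l in Icc 1 L, (a k l) ^ p ∂μ ≤ K₀ * (N ^ p *
      ENNReal.ofReal ((2 : ℝ) ^ (q * (1 + ε)) * ((2 : ℝ) ^ k) ^ (-(q * ε))) ^ p) := by
    intro k
    have h1 := hKK μ hμ _ _ (PE.pc_BS2 hf s hs0 k) (PE.EE f s k) (PE.EE_meas hf s k)
      (fun x hx => by
        unfold PE.pc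
        rw [indicator_of_notMem hx]) (PE.EE_vol0 f s k)
    refine h1.trans (mul_le_mul' le_rfl ?_)
    rw [← ENNReal.mul_rpow_of_nonneg _ _ hp0.le]
    apply ENNReal.rpow_le_rpow _ hp0.le
    rw [← hsq]
    apply term_bound s q ε hs0 hq2 hε0 k _ (PE.EE_vol0 f s k)
    intro j hj
    subst hj
    exact PE.EE_vol hf s hs0 q (by linarith) (le_of_eq hsq.symm) j
  calc ∫⁻ l in Icc 1 L, (∫⁻ ξ : ℝ × ℝ × ℝ, PE.wt γ ξ.2.2 *
        ‖PE.ext (PE.dil l f) ξ‖ₑ ^ q) ^ p ∂μ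
      ≤ ∫⁻ l in Icc 1 L, (C ^ (q - 1)) ^ p * (C ^ (p - 1) * ∑' k, V k * (W k * a k l) ^ p) ∂μ :=
        setLIntegral_mono' measurableSet_Icc hpt
    _ = (C ^ (q - 1)) ^ p * (C ^ (p - 1) *
        ∑' k, V k * (W k ^ p * ∫⁻ l in Icc 1 L, (a k l) ^ p ∂μ)) := by
        rw [lintegral_const_mul' _ _ hct1, lintegral_const_mul' _ _ hct2, lintegral_tsum]
        · congr 3
          ext k
          rw [lintegral_const_mul' _ _ ENNReal.ofReal_ne_top]
          congr 1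
          rw [← lintegral_const_mul' _ _ (ENNReal.rpow_ne_top_of_nonneg hp0.le
            ENNReal.ofReal_ne_top)]
          apply lintegral_congr
          intro l
          rw [ENNReal.mul_rpow_of_nonneg _ _ hp0.le]
        · intro k
          exact ((((ham k).const_mul _).pow_const p).const_mul _).aemeasurable
    _ ≤ (C ^ (q - 1)) ^ p * (C ^ (p - 1) * ∑' k, V k * (W k ^ p * (K₀ * (N ^ p *
          ENNReal.ofReal ((2 : ℝ) ^ (q * (1 + ε)) * ((2 : ℝ) ^ k) ^ (-(q * ε))) ^ p)))) := by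
        refine mul_le_mul' le_rfl (mul_le_mul' le_rfl (ENNReal.tsum_le_tsum fun k => ?_))
        exact mul_le_mul' le_rfl (mul_le_mul' le_rfl (hlev k))
    _ = (C ^ (q - 1)) ^ p * (C ^ (p - 1) * ∑' k, (K₀ * N ^ p) *
          (ENNReal.ofReal ((2 : ℝ) ^ (q * (1 + ε) * p)) *
            ENNReal.ofReal ((2 : ℝ) ^ (-(ε / 2) * (q * p + 1))) ^ k)) := by
        congr 3
        ext k
        rw [← T_term q p ε k]
        simp only [hV, hW, hρ]
        ring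
    _ = K₁ * N ^ p := by
        rw [ENNReal.tsum_mul_left, hK₁]
        ring
    _ ≤ (K₁ + 1) * N ^ p := mul_le_mul' le_self_add le_rfl

theorem Q_meas : MeasurableSet Q := measurableSet_Icc.prod measurableSet_Icc

theorem S2_ind {f : ℝ × ℝ → ℂ} (hf : Measurable f) : PE.S2 (Q.indicator f) := by
  refine ⟨hf.indicator Q_meas, fun x hx => ?_, fun x hx => ?_⟩
  · apply indicator_of_notMem
    intro h
    exact absurd (abs_le.2 h.1) (not_le.2 hx)
  · apply indicator_of_notMem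
    intro h
    exact absurd (abs_le.2 h.2) (not_le.2 hx)

theorem ext_eq (f : ℝ × ℝ → ℂ) (l : ℝ) (hl : 1 ≤ l) (x : ℝ × ℝ × ℝ) :
    ext (dilate l f) x = PE.ext (PE.dil l (Q.indicator f)) ((-(2 * Real.pi)) • x) := by
  unfold ext PE.ext
  rw [← integral_indicator Q_meas]
  apply integral_congr_ae
  refine ae_of_all _ fun ξ => ?_
  simp only
  have e : -I * (ξ.1 * (((-(2 * Real.pi)) • x).1 : ℝ) + ξ.2 * (((-(2 * Real.pi)) • x).2.1 : ℝ) +
      (ξ.1 ^ 2 + ξ.2 ^ 2) * (((-(2 * Real.pi)) • x).2.2 : ℝ) : ℂ) = 2 * Real.pi * I *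
    ((ξ.1 * x.1 + ξ.2 * x.2.1 + (ξ.1 ^ 2 + ξ.2 ^ 2) * x.2.2 : ℝ) : ℂ) := by
    simp only [Prod.smul_fst, Prod.smul_snd, smul_eq_mul]
    push_cast
    ring
  rw [e]
  by_cases h : ξ ∈ Q
  · rw [indicator_of_mem h, mul_comm]
    rfl
  · rw [indicator_of_notMem h]
    have h2 : (ξ.1, l * ξ.2) ∉ Q := by
      intro h3
      apply h
      refine ⟨h3.1, ?_⟩
      have h4 := h3.2
      simp only [mem_Icc] at h4 ⊢
      constructor <;> nlinarith
    have h5 : PE.dil l (Q.indicator f) ξ = 0 := indicator_of_notMem h2 f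
    rw [h5, mul_zero]

theorem scale (G : ℝ × ℝ × ℝ → ℝ≥0∞) (hG : Measurable G) :
    ∫⁻ x : ℝ × ℝ × ℝ, G ((-(2 * Real.pi)) • x) ≤ ∫⁻ x, G x := by
  have hc : -(2 * Real.pi) ≠ 0 := by
    have := Real.pi_pos
    linarith
  haveI i1 : (volume : Measure (ℝ × ℝ)).IsAddHaarMeasure :=
    inferInstanceAs (((volume : Measure ℝ).prod (volume : Measure ℝ)).IsAddHaarMeasure)
  haveI i2 : (volume : Measure (ℝ × ℝ × ℝ)).IsAddHaarMeasure :=
    inferInstanceAs (((volume : Measure ℝ).prod (volume : Measure (ℝ × ℝ))).IsAddHaarMeasure)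
  have h1 := Measure.map_addHaar_smul (volume : Measure (ℝ × ℝ × ℝ)) hc
  rw [← lintegral_map hG (measurable_const_smul _), h1, lintegral_smul_measure]
  apply mul_le_of_le_one_left zero_le
  rw [ENNReal.ofReal_le_one, abs_inv, abs_pow, abs_neg, abs_of_pos Real.two_pi_pos]
  apply inv_le_one_of_one_le₀
  apply one_le_pow₀
  have := Real.pi_gt_three
  linarith

/-- Let `μ` be a measure on the line with `μ([a, a + r]) ≤ A r^α` for all `a` and `r > 0`, where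
`0 < α ≤ 1`. Let `0 ≤ γ < α`, `q > 2 + 2 (1 + γ) / (1 + α)` and `1 ≤ p < (1 + α) / (1 + γ)`. Then

  `∫_{[1,L]} (∫_{ℝ³} (1 + |x₃|)^γ |E f_l(x)|^q dx)^p dμ(l) ≤ K (∫_{[-1,1]²} |f|^q)^p`

for all measurable `f`, with a constant `K` that depends only on `α, γ, p, q, A` and `L`. -/
theorem result (α γ p q A L : ℝ) (hA : 0 ≤ A) (hα1 : α ≤ 1) (hγ0 : 0 ≤ γ) (hγα : γ < α)
    (hp1 : 1 ≤ p) (hp : p < (1 + α) / (1 + γ)) (hq : 2 + 2 * (1 + γ) / (1 + α) < q) (hL : 1 ≤ L) :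
    ∃ K : ℝ≥0, ∀ μ : Measure ℝ,
      (∀ a r : ℝ, 0 < r → μ (Icc a (a + r)) ≤ ENNReal.ofReal (A * r ^ α)) →
      ∀ f : ℝ × ℝ → ℂ, Measurable f →
        ∫⁻ l in Icc 1 L, (∫⁻ x : ℝ × ℝ × ℝ, ENNReal.ofReal ((1 + |x.2.2|) ^ γ) *
          ‖ext (dilate l f) x‖ₑ ^ q) ^ p ∂μ ≤ K * (∫⁻ ξ in Q, ‖f ξ‖ₑ ^ q) ^ p := by
  set P : ℝ := (1 + α) / (1 + γ) with hP
  have hP1 : 1 < P := by
    rw [hP, one_lt_div (by linarith)]
    linarith
  have hq2 : 0 < q - 2 := by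
    have : 0 < 2 * (1 + γ) / (1 + α) := by
      apply div_pos <;> linarith
    linarith
  have hr : 2 / (q - 2) < P := by
    rw [hP, div_lt_div_iff₀ hq2 (by linarith)]
    have h1 : 2 * (1 + γ) / (1 + α) < q - 2 := by linarith
    rw [div_lt_iff₀ (by linarith)] at h1
    linarith
  set m : ℝ := max p (2 / (q - 2)) with hm
  have hmP : m < P := max_lt hp hr
  set p' : ℝ := (m + P) / 2 with hp'
  have hpm : p ≤ m := le_max_left _ _
  have hrm : 2 / (q - 2) ≤ m := le_max_right _ _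
  have hp'1 : 1 < p' := by linarith
  have hpp' : p < p' := by linarith
  have hp'0 : 0 < p' := by linarith
  have hp0 : 0 < p := by linarith
  have hp'P : p' < P := by linarith
  have h1 : p' * (1 + γ) < 1 + α := by
    rwa [hP, lt_div_iff₀ (by linarith)] at hp'P
  have h2 : 2 + 2 / p' < q := by
    have h3 : 2 / (q - 2) < p' := by linarith
    rw [div_lt_iff₀ hq2] at h3
    have h4 : 2 / p' < q - 2 := by
      rw [div_lt_iff₀ hp'0]
      linarith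
    linarith
  obtain ⟨K, hK, hKK⟩ := moments_lib α γ p' q A L hA hα1 hγ0 hp'1 h1 h2 hL
  set B : ℝ≥0∞ := ENNReal.ofReal (A * L ^ α) with hB
  set K' : ℝ≥0∞ := K ^ (p / p') * B ^ (1 / (p' / (p' - p))) with hK'
  have hK't : K' ≠ ⊤ := by
    rw [hK']
    refine ENNReal.mul_ne_top (ENNReal.rpow_ne_top_of_nonneg (by positivity) hK)
      (ENNReal.rpow_ne_top_of_nonneg ?_ ENNReal.ofReal_ne_top)
    have : 0 < p' - p := by linarith
    positivity
  refine ⟨K'.toNNReal, ?_⟩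
  intro μ hμ f hf
  rw [ENNReal.coe_toNNReal hK't]
  have hg := S2_ind hf
  have h5 := hKK μ hμ _ hg
  set g := Q.indicator f with hgdef
  set F : ℝ → ℝ≥0∞ := fun l => ∫⁻ ξ : ℝ × ℝ × ℝ, PE.wt γ ξ.2.2 *
    ‖PE.ext (PE.dil l g) ξ‖ₑ ^ q with hF
  have hmw : Measurable fun ξ : ℝ × ℝ × ℝ => PE.wt γ ξ.2.2 :=
    (PE.wt_meas γ).comp (measurable_snd.comp measurable_snd)
  have hFm : Measurable F := by
    have h1 : Measurable fun z : ℝ × ℝ × ℝ × ℝ => PE.wt γ z.2.2.2 *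
        ‖PE.ext (PE.dil z.1 g) z.2‖ₑ ^ q :=
      (hmw.comp measurable_snd).mul ((PE.ext_meas hg.meas).enorm.pow_const q)
    exact h1.lintegral_prod_right'
  have hN : ∫⁻ x, ‖g x‖ₑ ^ q = ∫⁻ ξ in Q, ‖f ξ‖ₑ ^ q := by
    rw [← lintegral_indicator Q_meas]
    apply lintegral_congr
    intro x
    by_cases hx : x ∈ Q
    · rw [hgdef, indicator_of_mem hx, indicator_of_mem hx]
    · rw [hgdef, indicator_of_notMem hx, indicator_of_notMem hx, enorm_zero,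
        ENNReal.zero_rpow_of_pos (by linarith)]
  have h6 : ∫⁻ l in Icc 1 L, (∫⁻ x : ℝ × ℝ × ℝ, ENNReal.ofReal ((1 + |x.2.2|) ^ γ) *
      ‖ext (dilate l f) x‖ₑ ^ q) ^ p ∂μ ≤ ∫⁻ l in Icc 1 L, F l ^ p ∂μ := by
    apply setLIntegral_mono' measurableSet_Icc
    intro l hl
    apply ENNReal.rpow_le_rpow _ hp0.le
    refine le_trans ?_ (scale (fun ξ => PE.wt γ ξ.2.2 * ‖PE.ext (PE.dil l g) ξ‖ₑ ^ q)
      (hmw.mul ((PE.ext_meas1 hg.meas l).enorm.pow_const q)))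
    apply lintegral_mono
    intro x
    simp only
    rw [ext_eq f l hl.1]
    refine mul_le_mul' ?_ le_rfl
    unfold PE.wt
    apply ENNReal.ofReal_le_ofReal
    apply Real.rpow_le_rpow (by positivity) _ hγ0
    simp only [Prod.smul_snd, smul_eq_mul, abs_mul, abs_neg, abs_of_pos Real.two_pi_pos]
    have := Real.pi_gt_three
    have h7 := abs_nonneg x.2.2
    nlinarith
  have hμL : (μ.restrict (Icc 1 L)) univ ≤ B := by
    rw [Measure.restrict_apply_univ]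
    refine (measure_mono ?_).trans (hμ 1 L (by linarith))
    exact Icc_subset_Icc le_rfl (by linarith)
  have hpq : (p' / p).HolderConjugate (p' / (p' - p)) := by
    rw [Real.holderConjugate_iff]
    constructor
    · rw [lt_div_iff₀ hp0]
      linarith
    · rw [inv_div, inv_div]
      field_simp
      ring
  have h7 := ENNReal.lintegral_mul_le_Lp_mul_Lq (μ.restrict (Icc 1 L)) hpq
    (f := fun l => F l ^ p) (g := fun _ => 1) (hFm.pow_const p).aemeasurable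
    measurable_const.aemeasurable
  simp only [Pi.mul_apply, mul_one, ENNReal.one_rpow, lintegral_const, one_mul] at h7
  have e1 : ∀ l, (F l ^ p) ^ (p' / p) = F l ^ p' := by
    intro l
    rw [← ENNReal.rpow_mul]
    congr 1
    field_simp
  simp only [e1, one_div_div] at h7
  refine h6.trans (h7.trans ?_)
  rw [hK', mul_right_comm]
  have h8 : 0 ≤ 1 / (p' / (p' - p)) := by
    have : 0 < p' - p := by linarith
    positivity
  refine mul_le_mul' ?_ ?_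
  · refine (ENNReal.rpow_le_rpow h5 (by positivity)).trans (le_of_eq ?_)
    rw [hN, ENNReal.mul_rpow_of_nonneg _ _ (by positivity), ← ENNReal.rpow_mul]
    congr 2
    field_simp
  · rw [one_div_div] at h8 ⊢
    exact ENNReal.rpow_le_rpow hμL h8

end Pool.Agent.Results.MP_b7167f_an.DilateMoments
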