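import Pool.Agent.V1172.GD.Rules
import Pool.Agent.V1172.GD.Sup

/-!
# The restriction conjecture for the paraboloid: the endpoint and the scaling line, in all dimensions,
# for densities whose level sets satisfy a dispersive estimate

Let `n ≥ 1`, `d = n + 1` and let `E` be the extension operator of the paraboloid in `ℝ^d`. The
dispersive constant of a function `g` on `ℝ^n` is the least `D` with `|E g(x,t)| ≤ D |t|^(-n/2)` for
all `x` and all `t ≠ 0`. Two classes of densities, possibly unbounded, are considered.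

* One density: the indicator functions of the superlevel sets of the positive and negative parts of
  `Re f` and `Im f` have dispersive constants at most `B`.
* Superpositions `∑_j e^{2πi(a_j·ξ + b_j|ξ|²)} φ_j(ξ) m_j(ξ)` with arbitrary `a_j ∈ ℝ^n`, `b_j ∈ ℝ`,
  where `φ_j ≥ 0`, `|m_j| ≤ 1` and the functions `1_{φ_j > s} m_j` have dispersive constants at most
  `B_j`.

For them the restriction conjecture is proved in its full range `q > 2d/(d-1)`, up to the endpoint
`q = 2d/(d-1)`, with the weak norm there, and on the whole scaling line, with an absolute constant.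

Rules for the dispersive constant: it is at most `3^n` for boxes, at most `πN` for planar sets which
meet every open half-line in at most `N` intervals (for example `N = 1` for convex sets) and more
generally at most a quarter of the cyclic variation of a planar function; it is multiplicative for
products of functions of complementary sets of coordinates, invariant under rotations, and subadditive
for superpositions.
-/

set_option autoImplicit false

namespace Pool.Agent.Results.MP_b7167f_an.DispersiveLevelSets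

open MeasureTheory Set
open scoped ENNReal NNReal

/-- The extension operator of the paraboloid in `ℝ^(n+1)`, for functions on `ℝ^n` (a function on the
cube `[-1,1]^n` is extended by `0`). -/
noncomputable def ext {n : ℕ} (f : (Fin n → ℝ) → ℂ) (y : (Fin n → ℝ) × ℝ) : ℂ :=
  ∫ ξ : Fin n → ℝ, Complex.exp (2 * Real.pi * Complex.I *
    ((∑ j, ξ j * y.1 j + (∑ j, ξ j ^ 2) * y.2 : ℝ) : ℂ)) * f ξ

/-- The dispersive constant of `g` is at most `D`: `|E g(x,t)| ≤ D |t|^(-n/2)` for `t ≠ 0`. -/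
def Dispersive {n : ℕ} (D : ℝ) (g : (Fin n → ℝ) → ℂ) : Prop :=
  ∀ (x : Fin n → ℝ) (t : ℝ), t ≠ 0 → ‖ext g (x, t)‖ ≤ D / |t| ^ ((n : ℝ) / 2)

/-- The indicator functions of the superlevel sets of the positive and negative parts of `Re f` and
`Im f` have dispersive constants at most `B`. -/
def Levels {n : ℕ} (B : ℝ) (f : (Fin n → ℝ) → ℂ) : Prop :=
  ∀ s : ℝ, 0 < s → Dispersive B ({ξ | s < (f ξ).re}.indicator 1) ∧
    Dispersive B ({ξ | (f ξ).re < -s}.indicator 1) ∧
    Dispersive B ({ξ | s < (f ξ).im}.indicator 1) ∧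
    Dispersive B ({ξ | (f ξ).im < -s}.indicator 1)

/-- The data of a term `φ m` of a superposition: `φ ≥ 0`, `|m| ≤ 1` and the functions `1_{φ > s} m` have
dispersive constants at most `B`. -/
structure Term {n : ℕ} (B : ℝ) (φ : (Fin n → ℝ) → ℝ≥0) (m : (Fin n → ℝ) → ℂ) : Prop where
  pos : 0 < B
  meas_φ : Measurable φ
  meas_m : Measurable m
  bound_m : ∀ ξ, ‖m ξ‖ ≤ 1
  disp : ∀ s : ℝ≥0, 0 < s → Dispersive B ({ξ | s < φ ξ}.indicator m)

/-- The norm of `φ` in `L^q`. -/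
noncomputable def lq {n : ℕ} (q : ℝ) (φ : (Fin n → ℝ) → ℝ≥0) : ℝ≥0∞ :=
  (∫⁻ ξ, (φ ξ : ℝ≥0∞) ^ q) ^ (1 / q)

/-- The point at the distance `r` from `x` in the direction `θ`. -/
noncomputable def ray (x : ℝ × ℝ) (θ r : ℝ) : ℝ × ℝ :=
  (x.1 + r * Real.cos θ, x.2 + r * Real.sin θ)

/-- The cyclic variation of `g` at `x`: the integral over the directions of the total variation of `g`
along the open half-line from `x`. -/
noncomputable def cyc (g : ℝ × ℝ → ℂ) (x : ℝ × ℝ) : ℝ≥0∞ :=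
  ∫⁻ θ in Ioo (-Real.pi) Real.pi, eVariationOn (fun r => g (ray x θ r)) (Ioi 0)

/-- `S` is a union of at most `N` intervals (of any kind, possibly empty). -/
def Intervals (N : ℕ) (S : Set ℝ) : Prop :=
  ∃ I : Fin N → Set ℝ, (∀ i, (I i).OrdConnected) ∧ S = ⋃ i, I i

/-! ### Proofs -/

open Pool.Agent.V1172.GD (Atm TT Disp)

lemma disp_iff {n : ℕ} {D : ℝ} {g : (Fin n → ℝ) → ℂ} : Dispersive D g ↔ Disp D g :=
  ⟨fun h z hz => h z.1 z.2 hz, fun h x t ht => h (x, t) ht⟩

lemma atm_of {n : ℕ} {B : ℝ} {φ : (Fin n → ℝ) → ℝ≥0} {m : (Fin n → ℝ) → ℂ} (h : Term B φ m) :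
    Atm B φ m :=
  ⟨h.pos, h.meas_φ, h.meas_m, h.bound_m, fun s hs => disp_iff.1 (h.disp s hs)⟩

lemma disp_const {n : ℕ} {D : ℝ} {A : Set (Fin n → ℝ)} (c : ℂ) (hc : ‖c‖ ≤ 1)
    (h : Disp D (A.indicator 1)) : Disp D (A.indicator fun _ => c) := by
  intro z hz
  have e : TT (A.indicator fun _ => c) z = c * TT (A.indicator 1) z := by
    unfold TT Pool.Agent.V1172.GP.Top
    rw [← integral_const_mul]
    congr 1
    ext ξ
    by_cases h : ξ ∈ A
    · rw [indicator_of_mem h, indicator_of_mem h, Pi.one_apply]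
      ring
    · rw [indicator_of_notMem h, indicator_of_notMem h]
      ring
  rw [e, norm_mul]
  calc ‖c‖ * ‖TT (A.indicator 1) z‖ ≤ 1 * ‖TT (A.indicator 1) z‖ := by gcongr
    _ ≤ _ := by rw [one_mul]; exact h z hz

lemma atm_prt {n : ℕ} {B : ℝ} (hB : 0 < B) {f : (Fin n → ℝ) → ℂ} (hf : Measurable f)
    (h : Levels B f) (j : Fin 4) :
    Atm B (Pool.Agent.V1172.GD.prt f j) fun _ => Pool.Agent.V1172.GP.phs j := by
  refine ⟨hB, Pool.Agent.V1172.GD.prt_meas hf j, measurable_const,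
    fun _ => Pool.Agent.V1172.GP.phs_norm j, fun s hs => ?_⟩
  obtain ⟨a0, a1, a2, a3⟩ := h s (by exact_mod_cast hs)
  refine disp_const _ (Pool.Agent.V1172.GP.phs_norm j) ?_
  have key : ∀ A : Set (Fin n → ℝ), Dispersive B (A.indicator 1) →
      {y | s < Pool.Agent.V1172.GD.prt f j y} = A →
      Disp B ({y | s < Pool.Agent.V1172.GD.prt f j y}.indicator 1) := fun A hA e => by
    rw [e]
    exact disp_iff.1 hA
  fin_cases j
  · refine key _ a0 ?_
    ext y
    simp only [mem_ofPred_eq, Pool.Agent.V1172.GD.prt]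
    rw [Real.lt_toNNReal_iff_coe_lt]
    rfl
  · refine key _ a1 ?_
    ext y
    simp only [mem_ofPred_eq, Pool.Agent.V1172.GD.prt]
    rw [Real.lt_toNNReal_iff_coe_lt]
    show (s : ℝ) < -(f y).re ↔ _
    constructor <;> intro h <;> linarith
  · refine key _ a2 ?_
    ext y
    simp only [mem_ofPred_eq, Pool.Agent.V1172.GD.prt]
    rw [Real.lt_toNNReal_iff_coe_lt]
    rfl
  · refine key _ a3 ?_
    ext y
    simp only [mem_ofPred_eq, Pool.Agent.V1172.GD.prt]
    rw [Real.lt_toNNReal_iff_coe_lt]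
    show (s : ℝ) < -(f y).im ↔ _
    constructor <;> intro h <;> linarith

/-- the scaling line for one density -/
lemma line {n : ℕ} (hn : 0 < n) {B : ℝ} (hB : 0 < B) {f : (Fin n → ℝ) → ℂ} (hf : Measurable f)
    (hi : Integrable f) (h : Levels B f) {q : ℝ} (hq : 2 + 2 / (n : ℝ) < q) :
    eLpNorm (ext f) (ENNReal.ofReal q) volume ≤
      ENNReal.ofReal (65536 * (B ^ (2 / (n : ℝ)) / (q - 2 - 2 / n)) ^ (1 / q)) *
        eLpNorm f (ENNReal.ofReal (q / (q - 1 - 2 / n))) volume := by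
  have hn0 : (0 : ℝ) < n := by exact_mod_cast hn
  have hc0 : 0 < 2 / (n : ℝ) := by positivity
  have hq2 : 0 < q - 1 - 2 / (n : ℝ) := by linarith
  have hq0 : 0 < q := by linarith
  have hqq : 0 < q / (q - 1 - 2 / (n : ℝ)) := by positivity
  refine (Pool.Agent.V1172.GD.one_strong hn hf hi.hasFiniteIntegral.ne (atm_prt hB hf h) hq).trans ?_
  rw [eLpNorm_eq_lintegral_rpow_enorm_toReal (f := f)
    (by rw [ne_eq, ENNReal.ofReal_eq_zero]; linarith) ENNReal.ofReal_ne_top,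
    ENNReal.toReal_ofReal hqq.le]

/-- densities supported in the cube -/
lemma cube {n : ℕ} {f : (Fin n → ℝ) → ℂ} (hf : Measurable f) (hs : ∀ ξ, f ξ ≠ 0 → ∀ j, |ξ j| ≤ 1)
    {p : ℝ} (hp : 1 ≤ p) {r : ℝ≥0∞} (hpr : ENNReal.ofReal p ≤ r) :
    eLpNorm f (ENNReal.ofReal p) volume ≤ 2 ^ n * eLpNorm f r volume := by
  set J : Set (Fin n → ℝ) := Icc (-1) 1 with hJ
  have hsup : Function.support f ⊆ J := fun ξ hξ =>
    ⟨fun j => (abs_le.1 (hs ξ hξ j)).1, fun j => (abs_le.1 (hs ξ hξ j)).2⟩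
  have hvol : (volume : Measure (Fin n → ℝ)) J = 2 ^ n := by
    rw [hJ, Real.volume_Icc_pi]
    simp only [Pi.neg_apply, Pi.one_apply, Finset.prod_const, Finset.card_univ, Fintype.card_fin]
    congr 1
    norm_num
  have e : ∀ r : ℝ≥0∞, eLpNorm f r ((volume : Measure (Fin n → ℝ)).restrict J) = eLpNorm f r volume :=
    fun r => eLpNorm_restrict_eq_of_support_subset hsup
  rw [← e, ← e]
  have h1 := eLpNorm_le_eLpNorm_mul_rpow_measure_univ hpr
    (hf.aestronglyMeasurable (μ := (volume : Measure (Fin n → ℝ)).restrict J))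
  refine h1.trans ?_
  rw [mul_comm]
  gcongr
  rw [Measure.restrict_apply_univ, hvol, ENNReal.toReal_ofReal (by linarith)]
  have h2 : (1 : ℝ≥0∞) ≤ 2 ^ n := one_le_pow₀ (by norm_num)
  calc ((2 : ℝ≥0∞) ^ n) ^ (1 / p - 1 / r.toReal) ≤ ((2 : ℝ≥0∞) ^ n) ^ (1 : ℝ) := by
        apply ENNReal.rpow_le_rpow_of_exponent_le h2
        have h3 : 1 / p ≤ 1 := by
          rw [div_le_one (by linarith)]
          exact hp
        have h4 : 0 ≤ 1 / r.toReal := by positivity
        linarith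
    _ = 2 ^ n := ENNReal.rpow_one _

/-- **The restriction conjecture for the paraboloid for densities whose level sets satisfy a dispersive
estimate.** There is an absolute constant `C` such that for all `n ≥ 1`, with `d = n + 1` (so that
`2 + 2/n = 2d/(d-1)`):

1. (the inequality of Q1) for all `q > 2d/(d-1)`, `B > 0` and all measurable `f` supported in the cube
   `[-1,1]^n` with level sets of dispersive constant at most `B`,
   `‖Ef‖_q ≤ C 2^n (B^(2/n)/(q-2-2/n))^(1/q) ‖f‖_r` for all `r` with `q/(q-1-2/n) ≤ r ≤ ∞`;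
2. for all integrable `f` on `ℝ^n` with level sets of dispersive constant at most `B`,
   `|{|Ef| > λ}| ≤ C B^(2/n) λ^(-2d/(d-1)) ∫ |f|^(2d/(d-1))` for all `λ > 0`, and
   `‖Ef‖_q ≤ C (B^(2/n)/(q-2-2/n))^(1/q) ‖f‖_(q/(q-1-2/n))` for all `q > 2d/(d-1)`;
3. for superpositions `f(ξ) = ∑_j e^{2πi(a_j·ξ + b_j|ξ|²)} φ_j(ξ) m_j(ξ)` with `∑_j ∫ φ_j < ∞`,
   `|{|Ef| > λ}| ≤ C (S/λ)^(2d/(d-1))` for all `λ > 0` and all `S ≥ ∑_j B_j^(1/d) ‖φ_j‖_(2d/(d-1))`, and
   `‖Ef‖_q ≤ C (q-2-2/n)^(-1/q) ∑_j B_j^(2/(nq)) ‖φ_j‖_(q/(q-1-2/n))` for all `q > 2d/(d-1)`.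

The dispersive constants satisfy the following rules.

4. Boxes: at most `3^n`.
5. Integrable planar functions of cyclic variation at most `B` at all points: at most `B/4`.
6. Planar sets of finite measure which meet every open half-line in at most `N` intervals: at most
   `πN`.
7. Products of functions of complementary sets of coordinates: at most the product.
8. Rotations: invariance.
9. Superpositions: subadditivity. -/
theorem result :
    (∃ C : ℝ, 0 < C ∧ ∀ n : ℕ, 0 < n →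
    (∀ (q B : ℝ) (f : (Fin n → ℝ) → ℂ), 2 + 2 / (n : ℝ) < q → 0 < B → Measurable f → Levels B f →
      (∀ ξ, f ξ ≠ 0 → ∀ j, |ξ j| ≤ 1) →
      ∀ r : ℝ≥0∞, ENNReal.ofReal (q / (q - 1 - 2 / n)) ≤ r →
        eLpNorm (ext f) (ENNReal.ofReal q) volume ≤
          ENNReal.ofReal (C * 2 ^ n * (B ^ (2 / (n : ℝ)) / (q - 2 - 2 / n)) ^ (1 / q)) *
            eLpNorm f r volume) ∧
    (∀ (B : ℝ) (f : (Fin n → ℝ) → ℂ), 0 < B → Measurable f → Integrable f → Levels B f →
      (∀ lam : ℝ, 0 < lam → volume {y | lam < ‖ext f y‖} ≤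
        ENNReal.ofReal (C * B ^ (2 / (n : ℝ)) / lam ^ (2 + 2 / (n : ℝ))) *
          ∫⁻ ξ, ‖f ξ‖ₑ ^ (2 + 2 / (n : ℝ))) ∧
      ∀ q : ℝ, 2 + 2 / (n : ℝ) < q → eLpNorm (ext f) (ENNReal.ofReal q) volume ≤
        ENNReal.ofReal (C * (B ^ (2 / (n : ℝ)) / (q - 2 - 2 / n)) ^ (1 / q)) *
          eLpNorm f (ENNReal.ofReal (q / (q - 1 - 2 / n))) volume) ∧
    ∀ (a : ℕ → Fin n → ℝ) (b B : ℕ → ℝ) (φ : ℕ → (Fin n → ℝ) → ℝ≥0) (m : ℕ → (Fin n → ℝ) → ℂ)
      (f : (Fin n → ℝ) → ℂ), (∀ j, Term (B j) (φ j) (m j)) → ∑' j, ∫⁻ ξ, φ j ξ ≠ ∞ →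
      (∀ᵐ ξ, f ξ = ∑' j, Complex.exp (2 * Real.pi * Complex.I *
        ((∑ i, ξ i * a j i + (∑ i, ξ i ^ 2) * b j : ℝ) : ℂ)) * (((φ j ξ : ℝ≥0) : ℂ) * m j ξ)) →
      (∀ S lam : ℝ, 0 < S → 0 < lam →
        ∑' j, ENNReal.ofReal (B j) ^ (1 / ((n : ℝ) + 1)) * lq (2 + 2 / (n : ℝ)) (φ j) ≤
          ENNReal.ofReal S →
        volume {y | lam < ‖ext f y‖} ≤ ENNReal.ofReal (C * (S / lam) ^ (2 + 2 / (n : ℝ)))) ∧
      ∀ q : ℝ, 2 + 2 / (n : ℝ) < q → eLpNorm (ext f) (ENNReal.ofReal q) volume ≤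
        ENNReal.ofReal (C * (1 / (q - 2 - 2 / n)) ^ (1 / q)) *
          ∑' j, ENNReal.ofReal (B j) ^ (2 / (n : ℝ) / q) * lq (q / (q - 1 - 2 / n)) (φ j)) ∧
    (∀ (n : ℕ) (p q : Fin n → ℝ), Dispersive (3 ^ n) ((Icc p q).indicator (1 : (Fin n → ℝ) → ℂ))) ∧
    (∀ (B : ℝ) (g : ℝ × ℝ → ℂ), 0 ≤ B → Measurable g → Integrable g →
      (∀ x, cyc g x ≤ ENNReal.ofReal B) → Dispersive (B / 4) fun ξ : Fin 2 → ℝ => g (ξ 0, ξ 1)) ∧
    (∀ (N : ℕ) (A : Set (ℝ × ℝ)), MeasurableSet A → volume A ≠ ∞ →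
      (∀ x θ, Intervals N {r | 0 < r ∧ ray x θ r ∈ A}) →
      Dispersive (Real.pi * N) fun ξ : Fin 2 → ℝ => A.indicator 1 (ξ 0, ξ 1)) ∧
    (∀ (a b n : ℕ) (e : Fin a ⊕ Fin b ≃ Fin n) (A B : ℝ) (g : (Fin a → ℝ) → ℂ)
      (h : (Fin b → ℝ) → ℂ), Dispersive A g → Dispersive B h →
      Dispersive (A * B) fun ξ : Fin n → ℝ =>
        g (fun i => ξ (e (Sum.inl i))) * h (fun i => ξ (e (Sum.inr i)))) ∧
    (∀ (n : ℕ) (B : ℝ) (g : (Fin n → ℝ) → ℂ)
      (R : EuclideanSpace ℝ (Fin n) ≃ₗᵢ[ℝ] EuclideanSpace ℝ (Fin n)), Dispersive B g →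
      Dispersive B fun ξ : Fin n → ℝ => g (R (WithLp.toLp 2 ξ)).ofLp) ∧
    ∀ (n : ℕ) (g : (Fin n → ℝ) → ℂ) (F : ℕ → (Fin n → ℝ) → ℂ) (β : ℕ → ℝ) (B : ℝ), 0 ≤ B →
      (∀ j, Measurable (F j)) → ∑' j, ∫⁻ ξ, ‖F j ξ‖ₑ ≠ ∞ → (∀ᵐ ξ, g ξ = ∑' j, F j ξ) →
      (∀ j, Dispersive (β j) (F j)) → ∑' j, ENNReal.ofReal (β j) ≤ ENNReal.ofReal B →
      Dispersive B g := by
  refine ⟨⟨600000, by norm_num, fun n hn => ⟨?_, ?_, ?_⟩⟩, ?_, ?_, ?_, ?_, ?_, ?_⟩
  · intro q B f hq hB hf hT hs r hr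
    have hn0 : (0 : ℝ) < n := by exact_mod_cast hn
    have hc0 : 0 < 2 / (n : ℝ) := by positivity
    have hq2 : 0 < q - 1 - 2 / (n : ℝ) := by linarith
    have hq3 : 0 < q - 2 - 2 / (n : ℝ) := by linarith
    have hq0 : 0 < q := by linarith
    have hqq : 1 ≤ q / (q - 1 - 2 / (n : ℝ)) := by
      rw [le_div_iff₀ hq2]
      linarith
    have hc := cube hf hs hqq hr
    by_cases hfin : eLpNorm f r volume = ∞
    · rw [hfin, ENNReal.mul_top]
      · exact le_top
      · rw [ne_eq, ENNReal.ofReal_eq_zero, not_le]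
        positivity
    have hi : Integrable f := by
      rw [← memLp_one_iff_integrable]
      refine ⟨hf.aestronglyMeasurable, lt_of_le_of_lt ?_ (lt_top_iff_ne_top.2
        (ENNReal.mul_ne_top (ENNReal.pow_ne_top (by norm_num : (2 : ℝ≥0∞) ≠ ∞) (n := n)) hfin))⟩
      have := cube hf hs (p := 1) le_rfl (r := r) (by
        refine le_trans (ENNReal.ofReal_le_ofReal hqq) hr)
      rwa [ENNReal.ofReal_one] at this
    refine (line hn hB hf hi hT hq).trans ((mul_le_mul' le_rfl hc).trans ?_)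
    rw [← mul_assoc]
    refine mul_le_mul' ?_ le_rfl
    rw [show (2 : ℝ≥0∞) ^ n = ENNReal.ofReal (2 ^ n) by
      rw [ENNReal.ofReal_pow (by norm_num)]; norm_num, ← ENNReal.ofReal_mul (by positivity)]
    apply ENNReal.ofReal_le_ofReal
    have : (65536 : ℝ) * (B ^ (2 / (n : ℝ)) / (q - 2 - 2 / n)) ^ (1 / q) * 2 ^ n =
      65536 * 2 ^ n * (B ^ (2 / (n : ℝ)) / (q - 2 - 2 / n)) ^ (1 / q) := by ring
    rw [this]
    gcongr
    norm_num
  · intro B f hB hf hi hT
    refine ⟨fun lam hlam => ?_, fun q hq => ?_⟩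
    · refine (Pool.Agent.V1172.GD.one_weak hn hf hi.hasFiniteIntegral.ne (atm_prt hB hf hT) hlam).trans ?_
      refine mul_le_mul' (ENNReal.ofReal_le_ofReal ?_) le_rfl
      gcongr
      norm_num
    · have hq3 : 0 < q - 2 - 2 / (n : ℝ) := by linarith
      refine (line hn hB hf hi hT hq).trans (mul_le_mul' (ENNReal.ofReal_le_ofReal ?_) le_rfl)
      gcongr
      norm_num
  · intro a b B φ m f hT hsum hf
    have hn0 : (0 : ℝ) < n := by exact_mod_cast hn
    have hn1 : (1 : ℝ) ≤ n := by exact_mod_cast hn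
    have hA := fun j => atm_of (hT j)
    set c : ℝ := 2 / (n : ℝ) with hc
    have hc0 : 0 < c := by positivity
    have hc2 : c ≤ 2 := by rw [hc, div_le_iff₀ hn0]; linarith
    set η : ℕ → (Fin n → ℝ) × ℝ := fun j => (a j, b j) with hη
    set F : ℕ → (Fin n → ℝ) → ℂ := fun j => Pool.Agent.V1172.GD.mdl (η j) (φ j) (m j) with hF
    have hFm : ∀ j, Measurable (F j) := fun j =>
      Pool.Agent.V1172.GD.mdl_meas (η j) (hT j).meas_φ (hT j).meas_m
    have hFs : ∑' j, ∫⁻ x, ‖F j x‖ₑ ≠ ∞ := ne_top_of_le_ne_top hsum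
      (ENNReal.tsum_le_tsum fun j => lintegral_mono fun x =>
        Pool.Agent.V1172.GD.mdl_enorm _ _ (hT j).bound_m x)
    have hfF : ∀ᵐ x, f x = ∑' j, F j x := hf
    have hfinj : ∀ j, ∫⁻ x, φ j x ≠ ∞ := fun j => ENNReal.ne_top_of_tsum_ne_top hsum j
    refine ⟨fun S lam hS hlam hSum => ?_, fun q hq => ?_⟩
    · have hne : ∀ j, ENNReal.ofReal (B j) ^ (1 / ((n : ℝ) + 1)) * lq (2 + c) (φ j) ≠ ∞ := fun j =>
        ENNReal.ne_top_of_tsum_ne_top (ne_top_of_le_ne_top ENNReal.ofReal_ne_top hSum) j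
      set β : ℕ → ℝ := fun j =>
        (ENNReal.ofReal (B j) ^ (1 / ((n : ℝ) + 1)) * lq (2 + c) (φ j)).toReal with hβ
      have hβe : ∀ j, ENNReal.ofReal (β j) =
          ENNReal.ofReal (B j) ^ (1 / ((n : ℝ) + 1)) * lq (2 + c) (φ j) :=
        fun j => ENNReal.ofReal_toReal (hne j)
      have hβ0 : ∀ j, 0 ≤ β j := fun j => ENNReal.toReal_nonneg
      have hβ3 : ∀ j, ENNReal.ofReal (β j ^ (2 + c)) =
          ENNReal.ofReal (B j) ^ c * ∫⁻ x, (φ j x : ℝ≥0∞) ^ (2 + c) := by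
        intro j
        rw [← ENNReal.ofReal_rpow_of_nonneg (hβ0 j) (by linarith), hβe,
          ENNReal.mul_rpow_of_nonneg _ _ (by linarith), lq, ← ENNReal.rpow_mul, ← ENNReal.rpow_mul]
        congr 2
        · rw [hc]
          field_simp
        · rw [one_div_mul_cancel (by linarith), ENNReal.rpow_one]
      refine (Pool.Agent.V1172.GD.sum_weak (Pool.Agent.V1172.GD.ker_ker n) (P := 2 + c) (by linarith)
        (C := 512) (by norm_num) hFm hFs hfF hβ0 (fun j l hl => ?_) hS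
        (by simp only [hβe]; exact hSum) hlam).trans ?_
      · refine (Pool.Agent.V1172.GD.atm_weak hn (hA j) (hfinj j) (η j) hl).trans ?_
        have hBj := (hT j).pos
        have hl2 : 0 < l ^ (2 + c) := by positivity
        have e1 : 32 * (4 * B j) ^ c / l ^ (2 + c) ≤ 512 / l ^ (2 + c) * B j ^ c := by
          have a1 : (4 : ℝ) ^ c ≤ 16 := by
            calc (4 : ℝ) ^ c ≤ 4 ^ (2 : ℝ) := Real.rpow_le_rpow_of_exponent_le (by norm_num) hc2
              _ = 16 := by norm_num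
          calc 32 * (4 * B j) ^ c / l ^ (2 + c) = 32 * 4 ^ c / l ^ (2 + c) * B j ^ c := by
                rw [Real.mul_rpow (by norm_num) hBj.le]
                ring
            _ ≤ 32 * 16 / l ^ (2 + c) * B j ^ c := by gcongr
            _ = _ := by norm_num
        refine (mul_le_mul' (ENNReal.ofReal_le_ofReal e1) le_rfl).trans (le_of_eq ?_)
        rw [ENNReal.ofReal_mul (by positivity), mul_assoc, ← ENNReal.ofReal_rpow_of_pos hBj, ← hβ3,
          ← ENNReal.ofReal_mul (by positivity)]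
        congr 1
        ring
      · apply ENNReal.ofReal_le_ofReal
        have a2 : (2 : ℝ) ^ (2 + c) ≤ 16 := by
          calc (2 : ℝ) ^ (2 + c) ≤ 2 ^ (4 : ℝ) :=
                Real.rpow_le_rpow_of_exponent_le (by norm_num) (by linarith)
            _ = 16 := by norm_num
        calc 2 * 512 * (2 * S / lam) ^ (2 + c) = 1024 * 2 ^ (2 + c) * (S / lam) ^ (2 + c) := by
              rw [mul_div_assoc, Real.mul_rpow (by norm_num) (by positivity)]
              ring
          _ ≤ 1024 * 16 * (S / lam) ^ (2 + c) := by gcongr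
          _ ≤ _ := by
              gcongr
              norm_num
    · have hq0 : 0 < q := by linarith
      have hq3 : 0 < q - 2 - c := by linarith
      refine (Pool.Agent.V1172.GP.sum_strong (Pool.Agent.V1172.GD.ker_ker n) hFm hFs hfF
        (p := q) (by linarith)).trans ?_
      rw [← ENNReal.tsum_mul_left]
      refine ENNReal.tsum_le_tsum fun j => ?_
      have hBj := (hT j).pos
      refine (Pool.Agent.V1172.GD.atm_strong hn (hA j) (hfinj j) (η j) hq).trans ?_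
      rw [← mul_assoc]
      refine mul_le_mul' ?_ le_rfl
      rw [ENNReal.ofReal_rpow_of_pos hBj, ← ENNReal.ofReal_mul (by positivity)]
      apply ENNReal.ofReal_le_ofReal
      have e1 : (B j ^ c / (q - 2 - c)) ^ (1 / q) = (1 / (q - 2 - c)) ^ (1 / q) * B j ^ (c / q) := by
        rw [show B j ^ (c / q) = (B j ^ c) ^ (1 / q) by
          rw [← Real.rpow_mul hBj.le]; congr 1; ring, ← Real.mul_rpow (by positivity) (by positivity)]
        congr 1
        ring
      rw [e1, ← mul_assoc]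
      gcongr
      norm_num
  · intro n p q
    exact disp_iff.2 (Pool.Agent.V1172.GD.disp_box p q)
  · intro B g hB hg hi hc
    exact disp_iff.2 (Pool.Agent.V1172.GD.disp_planar hB hg hi hc)
  · intro N A hA hv h
    have h1 : ∀ x, Pool.Agent.V1172.GP.cyc (A.indicator 1) x ≤ ENNReal.ofReal (4 * Real.pi * N) :=
      fun x => Pool.Agent.V1172.GP.cyc_rays (N := N) (A := A) (x := x) fun θ => h x θ
    have h2 := Pool.Agent.V1172.GD.disp_planar (B := 4 * Real.pi * N) (by positivity)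
      (g := A.indicator (1 : ℝ × ℝ → ℂ)) (measurable_one.indicator hA)
      ((integrable_indicator_iff hA).2 (by
        rw [show (1 : ℝ × ℝ → ℂ) = fun _ => (1 : ℂ) from rfl]
        exact integrableOn_const hv)) h1
    have e : 4 * Real.pi * N / 4 = Real.pi * N := by ring
    rw [e] at h2
    exact disp_iff.2 h2
  · intro a b n e A B g h hg hh
    exact disp_iff.2 (Pool.Agent.V1172.GD.Disp.mul e (disp_iff.1 hg) (disp_iff.1 hh))
  · intro n B g R hg
    exact disp_iff.2 (Pool.Agent.V1172.GD.Disp.rot (disp_iff.1 hg) R)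
  · intro n g F β B hB hF hs hg hd hβ
    exact disp_iff.2 (Pool.Agent.V1172.GD.Disp.tsum hF hs hg (fun j => disp_iff.1 (hd j)) hβ hB)

end Pool.Agent.Results.MP_b7167f_an.DispersiveLevelSets
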