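import Mathlib
import Pool.Agent.Y183.PP.H

/-!
# Mixed norm restriction estimates for the paraboloid in odd dimensions

Let `d = 2k + 1 ≥ 3` and write the points of `ℝ^(d-1)` as `k`-tuples of points of the plane. For the
functions `f(ξ) = ∏_j g_j(ξ_j) exp(i φ_j(ξ_j))`, where the `φ_j` are real polynomials of degree at
most `D` in two variables, with coefficients of arbitrary size, and the amplitudes `g_j` are
bounded by `1` and of total variation at most `1` on horizontal and on vertical lines, we prove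

  `∫ (∫ |E f(x, t)|^q dx)^ρ dt ≤ C(d, q, ρ) (1 + D)^(5 k ρ (q - 2))`

for all `q > 2`, `k ρ ≥ 1` and `k ρ (q - 2) > 1`. This is the range of exponents given by the example
`f = 1`, where `∫ |E f(x, t)|^q dx` is of size `t^(-k (q-2))`. For `ρ = 1` the condition is
`q > 2d/(d-1)`; for `ρ > 1` the exponent `q` may be arbitrarily close to `2` (`ρ → ∞`), where
Plancherel's theorem in `x` is the limiting case.
-/

set_option autoImplicit false

open MeasureTheory Set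
open scoped ENNReal NNReal

namespace Pool.Agent.Results.MP_b7167f_an.MixedNorms

/-- The square `[-1,1]²`. -/
def Q : Set (ℝ × ℝ) := Icc (-1 : ℝ) 1 ×ˢ Icc (-1 : ℝ) 1

/-- The extension operator of the paraboloid over `[-1,1]^(2k)`, with points of `ℝ^(2k)` written as
`k`-tuples of points of the plane:
`E f (x, t) = ∫ f(ξ) exp(2πi ∑_j (ξ_j · x_j + |ξ_j|² t)) dξ`. -/
noncomputable def ext {k : ℕ} (f : (Fin k → ℝ × ℝ) → ℂ) (x : Fin k → ℝ × ℝ) (t : ℝ) : ℂ :=
  ∫ ξ in univ.pi fun _ : Fin k => Q, f ξ * Complex.exp (2 * Real.pi * Complex.I *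
    ((∑ j, ((ξ j).1 * (x j).1 + (ξ j).2 * (x j).2 + ((ξ j).1 ^ 2 + (ξ j).2 ^ 2) * t) : ℝ) : ℂ))

/-- Amplitudes: measurable, bounded by `1` on the square, and of total variation at most `1` on its
horizontal and vertical lines. -/
structure Amp (g : ℝ × ℝ → ℂ) : Prop where
  meas : Measurable g
  bound : ∀ z ∈ Q, ‖g z‖ ≤ 1
  var₁ : ∀ v ∈ Icc (-1 : ℝ) 1, eVariationOn (fun u => g (u, v)) (Icc (-1) 1) ≤ 1
  var₂ : ∀ u ∈ Icc (-1 : ℝ) 1, eVariationOn (fun v => g (u, v)) (Icc (-1) 1) ≤ 1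

/-- The extension operator in the plane. -/
noncomputable def E2 (f : ℝ × ℝ → ℂ) (y : ℝ × ℝ) (t : ℝ) : ℂ :=
  ∫ z in Q, f z * Complex.exp (2 * Real.pi * Complex.I *
    ((z.1 * y.1 + z.2 * y.2 + (z.1 ^ 2 + z.2 ^ 2) * t : ℝ) : ℂ))

theorem Q_meas : MeasurableSet Q := measurableSet_Icc.prod measurableSet_Icc

theorem ext_prod {k : ℕ} (F : Fin k → ℝ × ℝ → ℂ) (x : Fin k → ℝ × ℝ) (t : ℝ) :
    ext (fun ξ => ∏ j, F j (ξ j)) x t = ∏ j, E2 (F j) (x j) t := by
  unfold ext E2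
  have h1 : (volume : Measure (Fin k → ℝ × ℝ)).restrict (univ.pi fun _ : Fin k => Q) =
      Measure.pi fun _ : Fin k => (volume : Measure (ℝ × ℝ)).restrict Q := by
    rw [volume_pi, Measure.restrict_pi_pi]
  rw [h1, ← integral_fintype_prod_eq_prod (μ := fun _ : Fin k => (volume : Measure (ℝ × ℝ)).restrict Q)
    (fun (j : Fin k) (z : ℝ × ℝ) => F j z * Complex.exp (2 * Real.pi * Complex.I *
      ((z.1 * (x j).1 + z.2 * (x j).2 + (z.1 ^ 2 + z.2 ^ 2) * t : ℝ) : ℂ)))]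
  refine integral_congr_ae (Filter.Eventually.of_forall fun ξ => ?_)
  simp only
  rw [Finset.prod_mul_distrib, ← Complex.exp_sum, ← Finset.mul_sum]
  congr 3
  push_cast
  rfl

theorem E2_sm {f : ℝ × ℝ → ℂ} (hf : Measurable f) :
    StronglyMeasurable fun p : (ℝ × ℝ) × ℝ => E2 f p.1 p.2 := by
  unfold E2
  refine StronglyMeasurable.integral_prod_right (f := fun (p : (ℝ × ℝ) × ℝ) (z : ℝ × ℝ) =>
    f z * Complex.exp (2 * Real.pi * Complex.I *
    ((z.1 * p.1.1 + z.2 * p.1.2 + (z.1 ^ 2 + z.2 ^ 2) * p.2 : ℝ) : ℂ))) ?_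
  refine Measurable.stronglyMeasurable ?_
  refine (hf.comp measurable_snd).mul ?_
  apply Continuous.measurable
  fun_prop

theorem lint_prod (n : ℕ) (g : Fin n → ℝ × ℝ → ℝ≥0∞) (hg : ∀ j, Measurable (g j)) :
    ∫⁻ y : Fin n → ℝ × ℝ, ∏ j, g j (y j) = ∏ j, ∫⁻ x : ℝ × ℝ, g j x := by
  induction n with
  | zero => simp [volume_pi]
  | succ n ih =>
    have h1 := (volume_preserving_piFinSuccAbove (fun _ : Fin (n+1) => ℝ × ℝ) 0).symm
    rw [← h1.lintegral_comp_emb (MeasurableEquiv.measurableEmbedding _)]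
    have h2 : ∀ a : (ℝ × ℝ) × (Fin n → ℝ × ℝ), ∏ j, g j ((MeasurableEquiv.piFinSuccAbove
        (fun _ : Fin (n+1) => ℝ × ℝ) 0).symm a j) = g 0 a.1 * ∏ j : Fin n, g j.succ (a.2 j) := by
      intro a
      rw [Fin.prod_univ_succ]
      simp [MeasurableEquiv.piFinSuccAbove]
    simp_rw [h2]
    have hG : Measurable (fun Y : Fin n → ℝ × ℝ => ∏ j, g j.succ (Y j)) :=
      Finset.measurable_prod _ fun j _ => (hg _).comp (measurable_pi_apply j)
    have h3 := lintegral_prod_mul (μ := (volume : Measure (ℝ × ℝ)))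
      (ν := (volume : Measure (Fin n → ℝ × ℝ))) (hg 0).aemeasurable hG.aemeasurable
    rw [Fin.prod_univ_succ, ← ih _ (fun j => hg j.succ)]
    exact h3

/-- The estimate in the plane. -/
theorem plane (q r : ℝ) (hq : 2 < q) (hr : 1 ≤ r) (hqr : 1 < (q - 2) * r) :
    ∃ C : ℝ≥0, ∀ (D : ℕ) (φ : MvPolynomial (Fin 2) ℝ) (g : ℝ × ℝ → ℂ), φ.totalDegree ≤ D →
      Amp g → ∫⁻ t : ℝ, (∫⁻ y : ℝ × ℝ, ‖E2 (fun z => g z *
        Complex.exp (Complex.I * (MvPolynomial.eval ![z.1, z.2] φ : ℂ))) y t‖ₑ ^ q) ^ r ≤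
        C * ENNReal.ofReal ((1 + D : ℝ) ^ 5) ^ ((q - 2) * r) := by
  obtain ⟨C, hC⟩ := Pool.Agent.Y183.PP.mixed_exp q r hq hr hqr
  refine ⟨C, fun D φ g hφ hg => ?_⟩
  set G : ℝ × ℝ → ℂ := Q.indicator g with hG
  have h1 := hC D φ hφ G (hg.meas.indicator Q_meas) 1 one_pos (fun z => by
      by_cases hz : z ∈ Q
      · rw [hG, indicator_of_mem hz]; exact hg.bound z hz
      · rw [hG, indicator_of_notMem hz, norm_zero]; exact zero_le_one) (fun y => by
      rw [ENNReal.ofReal_one]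
      by_cases hy : y ∈ Icc (-1 : ℝ) 1
      · have h2 : EqOn (fun x => G (x, y)) (fun x => g (x, y)) (Icc (-1 : ℝ) 1) := by
          intro x hx
          exact indicator_of_mem (show (x, y) ∈ Q from ⟨hx, hy⟩) _
        rw [eVariationOn.eq_of_eqOn h2]
        exact hg.var₁ y hy
      · have h2 : EqOn (fun x => G (x, y)) (fun _ => (0 : ℂ)) (Icc (-1 : ℝ) 1) := by
          intro x _
          exact indicator_of_notMem (show (x, y) ∉ Q from fun h => hy h.2) _
        rw [eVariationOn.eq_of_eqOn h2, eVariationOn.constant_on (by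
          rintro a ⟨_, _, rfl⟩ b ⟨_, _, rfl⟩; rfl)]
        exact zero_le_one) (fun x => by
      rw [ENNReal.ofReal_one]
      by_cases hx : x ∈ Icc (-1 : ℝ) 1
      · have h2 : EqOn (fun y => G (x, y)) (fun y => g (x, y)) (Icc (-1 : ℝ) 1) := by
          intro y hy
          exact indicator_of_mem (show (x, y) ∈ Q from ⟨hx, hy⟩) _
        rw [eVariationOn.eq_of_eqOn h2]
        exact hg.var₂ x hx
      · have h2 : EqOn (fun y => G (x, y)) (fun _ => (0 : ℂ)) (Icc (-1 : ℝ) 1) := by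
          intro y _
          exact indicator_of_notMem (show (x, y) ∉ Q from fun h => hx h.1) _
        rw [eVariationOn.eq_of_eqOn h2, eVariationOn.constant_on (by
          rintro a ⟨_, _, rfl⟩ b ⟨_, _, rfl⟩; rfl)]
        exact zero_le_one)
  rw [ENNReal.ofReal_one, ENNReal.one_rpow, mul_one] at h1
  refine le_trans (le_of_eq ?_) h1
  congr 1
  funext t
  congr 2
  funext y
  congr 2
  unfold E2
  show ∫ z in Q, _ = ∫ z in Q, _
  refine setIntegral_congr_fun Q_meas fun z hz => ?_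
  simp only
  rw [hG, indicator_of_mem hz, mul_assoc, ← Complex.exp_add]
  congr 1
  unfold Pool.Agent.Y183.PP.ex
  rw [Pool.Agent.Y183.PP.ev_Ph]
  congr 1
  unfold Pool.Agent.Y183.PP.ev
  push_cast
  ring

/-- Hölder's inequality for products of functions of pairs of variables. -/
theorem holder_prod {k : ℕ} (hk : 1 ≤ k) {ρ : ℝ} (hρ0 : 0 < ρ) (h : Fin k → ℝ × ℝ → ℝ → ℝ≥0∞)
    (hm : ∀ j, Measurable fun p : (ℝ × ℝ) × ℝ => h j p.1 p.2) (B : ℝ≥0∞)
    (hB : ∀ j, ∫⁻ t : ℝ, (∫⁻ y : ℝ × ℝ, h j y t) ^ (k * ρ) ≤ B) :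
    ∫⁻ t : ℝ, (∫⁻ x : Fin k → ℝ × ℝ, ∏ j, h j (x j) t) ^ ρ ≤ B := by
  have hk0 : (0 : ℝ) < k := by
    have : 0 < k := by omega
    exact_mod_cast this
  have hAm : ∀ j, Measurable fun t : ℝ => ∫⁻ y : ℝ × ℝ, h j y t := fun j =>
    (hm j).lintegral_prod_left'
  have h1 : ∀ t : ℝ, (∫⁻ x : Fin k → ℝ × ℝ, ∏ j, h j (x j) t) ^ ρ =
      ∏ j, ((∫⁻ y : ℝ × ℝ, h j y t) ^ (k * ρ)) ^ (1 / (k : ℝ)) := by
    intro t
    have hmt : ∀ j, Measurable fun y : ℝ × ℝ => h j y t := fun j =>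
      (hm j).comp (measurable_id.prodMk measurable_const)
    rw [lint_prod k (fun j y => h j y t) hmt, ← ENNReal.prod_rpow_of_nonneg hρ0.le]
    refine Finset.prod_congr rfl fun j _ => ?_
    rw [← ENNReal.rpow_mul]
    congr 1
    field_simp
  calc ∫⁻ t : ℝ, (∫⁻ x : Fin k → ℝ × ℝ, ∏ j, h j (x j) t) ^ ρ
      = ∫⁻ t : ℝ, ∏ j, ((∫⁻ y : ℝ × ℝ, h j y t) ^ (k * ρ)) ^ (1 / (k : ℝ)) := by simp only [h1]
    _ ≤ ∏ j : Fin k, (∫⁻ t : ℝ, (∫⁻ y : ℝ × ℝ, h j y t) ^ (k * ρ)) ^ (1 / (k : ℝ)) := by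
        refine ENNReal.lintegral_prod_norm_pow_le Finset.univ (fun j _ =>
          ((hAm j).pow_const _).aemeasurable) ?_ (fun j _ => by positivity)
        rw [Finset.sum_const, Finset.card_univ, Fintype.card_fin, nsmul_eq_mul]
        field_simp
    _ ≤ ∏ _j : Fin k, B ^ (1 / (k : ℝ)) := by
        refine Finset.prod_le_prod' fun j _ => ?_
        exact ENNReal.rpow_le_rpow (hB j) (by positivity)
    _ = B := by
        rw [Finset.prod_const, Finset.card_univ, Fintype.card_fin, ← ENNReal.rpow_natCast,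
          ← ENNReal.rpow_mul]
        rw [one_div, inv_mul_cancel₀ hk0.ne', ENNReal.rpow_one]

theorem enorm_prod' {k : ℕ} (f : Fin k → ℂ) : ‖∏ j, f j‖ₑ = ∏ j, ‖f j‖ₑ := by
  simp only [enorm_eq_nnnorm, nnnorm_prod, ENNReal.ofNNReal_finsetProd]

/-- **Mixed norm restriction estimates in odd dimensions `2k + 1`, for products of functions
`g_j(ξ_j) exp(i φ_j(ξ_j))` of pairs of variables with polynomial phases `φ_j` of arbitrary size and
amplitudes `g_j` of bounded variation on lines.** -/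
theorem result (k : ℕ) (hk : 1 ≤ k) (q ρ : ℝ) (hq : 2 < q) (hρ : 1 ≤ k * ρ)
    (hqρ : 1 < k * ρ * (q - 2)) :
    ∃ C : ℝ≥0, ∀ (D : ℕ) (φ : Fin k → MvPolynomial (Fin 2) ℝ) (g : Fin k → ℝ × ℝ → ℂ),
      (∀ j, (φ j).totalDegree ≤ D) → (∀ j, Amp (g j)) →
      ∫⁻ t : ℝ, (∫⁻ x : Fin k → ℝ × ℝ, ‖ext (fun ξ => ∏ j, (g j (ξ j) *
          Complex.exp (Complex.I * (MvPolynomial.eval ![(ξ j).1, (ξ j).2] (φ j) : ℂ)))) x t‖ₑ ^ q) ^ ρ
        ≤ C * ENNReal.ofReal ((1 + D : ℝ) ^ 5) ^ (k * ρ * (q - 2)) := by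
  have hk0 : (0 : ℝ) < k := by
    have : 0 < k := by omega
    exact_mod_cast this
  have hρ0 : 0 < ρ := by
    by_contra hcon
    push Not at hcon
    have : (k : ℝ) * ρ ≤ 0 := mul_nonpos_of_nonneg_of_nonpos hk0.le hcon
    linarith
  obtain ⟨C, hC⟩ := plane q (k * ρ) hq hρ (by linarith)
  refine ⟨C, fun D φ g hφ hg => ?_⟩
  set F : Fin k → ℝ × ℝ → ℂ := fun j z => g j z *
    Complex.exp (Complex.I * (MvPolynomial.eval ![z.1, z.2] (φ j) : ℂ)) with hF
  have hFm : ∀ j, Measurable (F j) := by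
    intro j
    refine (hg j).meas.mul ?_
    apply Continuous.measurable
    have h1 : Continuous fun z : ℝ × ℝ => MvPolynomial.eval ![z.1, z.2] (φ j) := by
      have h2 : Continuous fun v : Fin 2 → ℝ => MvPolynomial.eval v (φ j) :=
        MvPolynomial.continuous_eval _
      refine h2.comp ?_
      refine continuous_pi fun i => ?_
      fin_cases i
      · exact continuous_fst
      · exact continuous_snd
    exact Complex.continuous_exp.comp (continuous_const.mul (Complex.continuous_ofReal.comp h1))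
  have hEm : ∀ j, Measurable fun p : (ℝ × ℝ) × ℝ => ‖E2 (F j) p.1 p.2‖ₑ ^ q := fun j =>
    ((E2_sm (hFm j)).measurable.enorm).pow_const _
  have hB : ∀ j, ∫⁻ t : ℝ, (∫⁻ y : ℝ × ℝ, ‖E2 (F j) y t‖ₑ ^ q) ^ (k * ρ) ≤
      C * ENNReal.ofReal ((1 + D : ℝ) ^ 5) ^ (k * ρ * (q - 2)) := by
    intro j
    have h1 := hC D (φ j) (g j) (hφ j) (hg j)
    rw [mul_comm (q - 2)] at h1
    exact h1
  refine le_trans (le_of_eq ?_) (holder_prod hk hρ0 (fun j y t => ‖E2 (F j) y t‖ₑ ^ q) hEm _ hB)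
  congr 1
  funext t
  congr 2
  funext x
  have h3 := ext_prod F x t
  simp only [hF] at h3 ⊢
  rw [h3, enorm_prod', ENNReal.prod_rpow_of_nonneg (by linarith)]

end Pool.Agent.Results.MP_b7167f_an.MixedNorms
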