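import Pool.Agent.V1178.RS.Main
import Pool.Agent.V1178.RS.Radial

/-!
# The restriction conjecture for functions with round superlevel sections

Let `d = m + 2 ≥ 3` and write `ξ = (u, v)`, `u ∈ [-1,1]`, `v ∈ [-1,1]^m`. In the full conjectured
range `q > 2d/(d-1)` the estimate `‖E f‖_q ≤ C ‖f‖_p`, for `p ≥ 2d/(d-1)` with
`1/p < 1 - (d+1)/((d-1)q)` (for instance `p = q`), is proved for all, possibly unbounded, functions
such that for every `u` the function `f(u,·)` is a decreasing function of the distance to some point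
`c(u)` of `[-1,1]^m`; the dependence of the point and of the function on `u` is arbitrary.
More generally, for every `u` the superlevel sets of the positive and negative parts of `Re f(u,·)`
and `Im f(u,·)` may be unions of `N` convex sets of bounded eccentricity, or sets whose perimeter is
at most a constant times a power `κ` of their volume; there is no condition how `f` varies with `u`.
The constant is the same for all functions `f(ξ) exp(2πi ∑ l_j ξ_j²)`, `l ∈ ℝ^(d-1)`.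
-/

set_option autoImplicit false

namespace Pool.Agent.Results.MP_b7167f_an.RoundSections

open MeasureTheory Set Complex
open scoped ENNReal NNReal

/-- The closed cube `[-1,1]^n`. -/
abbrev cube (n : ℕ) : Set (Fin n → ℝ) := Icc (fun _ : Fin n => (-1 : ℝ)) (fun _ => 1)

/-- The extension operator of the truncated paraboloid in `ℝ^(n+1)`:
`Ef(x,t) = ∫_{[-1,1]^n} f(ξ) exp(2πi(ξ·x + |ξ|² t)) dξ`. -/
noncomputable def ext {n : ℕ} (f : (Fin n → ℝ) → ℂ) (y : (Fin n → ℝ) × ℝ) : ℂ :=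
  ∫ ξ in cube n,
    f ξ * cexp (2 * Real.pi * I * ((∑ j, ξ j * y.1 j + (∑ j, ξ j ^ 2) * y.2 : ℝ) : ℂ))

/-- The quadratic exponential `exp (2 π i ∑ l_j ξ_j²)`. -/
noncomputable def chirp {n : ℕ} (l ξ : Fin n → ℝ) : ℂ :=
  cexp (2 * Real.pi * I * ((∑ j, l j * ξ j ^ 2 : ℝ) : ℂ))

variable {m : ℕ}

/-- For every `u` there are a number `a`, a point `c` of the cube and a nonincreasing function
`F ≥ 0` on `(0,∞)` with `f(u,v) = a F(|v - c|²)` for all `v ≠ c` in the cube; here `|·|` is the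
Euclidean norm. Nothing is assumed on the dependence on `u`. -/
def RadialSections (f : (Fin (m + 1) → ℝ) → ℂ) : Prop :=
  ∀ u ∈ Icc (-1 : ℝ) 1, ∃ (a : ℂ) (c : Fin m → ℝ) (F : ℝ → ℝ), c ∈ cube m ∧
    (∀ x y, 0 < x → x ≤ y → F y ≤ F x) ∧ (∀ x, 0 < x → 0 ≤ F x) ∧
    ∀ v ∈ cube m, v ≠ c → f (Fin.cons u v) = a * F (∑ i, (v i - c i) ^ 2)

/-- `K` is convex, contains the cube `a + [-ρ,ρ]^m` and is contained in `a + [-Aρ,Aρ]^m`
(the norm on `Fin m → ℝ` is the maximum norm). -/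
def Round (A : ℝ) (K : Set (Fin m → ℝ)) : Prop :=
  Convex ℝ K ∧ ∃ (a : Fin m → ℝ) (ρ : ℝ), 0 < ρ ∧ Metric.closedBall a ρ ⊆ K ∧
    K ⊆ Metric.closedBall a (A * ρ)

/-- Up to a null set, `S` is a union of at most `N` sets `K` with `Round A K`. -/
def RoundUnion (N : ℕ) (A : ℝ) (S : Set (Fin m → ℝ)) : Prop :=
  ∃ K : Fin N → Set (Fin m → ℝ), (∀ i, K i = ∅ ∨ Round A (K i)) ∧ S =ᵐ[volume] ⋃ i, K i

/-- The perimeter of `S` in the cube is at most `k` times the volume of `S` to the power `κ`. -/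
def Perimeter (κ k : ℝ) (S : Set (Fin m → ℝ)) : Prop :=
  ∀ h : Fin m → ℝ, ‖h‖ ≤ 1 →
    volume {v | (v ∈ cube m ∧ v + h ∈ cube m) ∧ ¬ (v + h ∈ S ↔ v ∈ S)} ≤
      ENNReal.ofReal (k * ‖h‖) * volume S ^ κ

/-- `P u S` holds for every `u` and all superlevel sets `S` of the positive and negative parts of
the real and imaginary parts of `f(u,·)` in the cube. -/
def Sections (P : ℝ → Set (Fin m → ℝ) → Prop) (f : (Fin (m + 1) → ℝ) → ℂ) : Prop :=
  ∀ u ∈ Icc (-1 : ℝ) 1, ∀ s : ℝ, 0 ≤ s →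
    P u {v | v ∈ cube m ∧ s < (f (Fin.cons u v)).re} ∧
    P u {v | v ∈ cube m ∧ (f (Fin.cons u v)).re < -s} ∧
    P u {v | v ∈ cube m ∧ s < (f (Fin.cons u v)).im} ∧
    P u {v | v ∈ cube m ∧ (f (Fin.cons u v)).im < -s}

/-- integrals over the cube -/
lemma cube_split {g : (Fin (m + 1) → ℝ) → ℝ≥0∞} (hg : Measurable g) :
    ∫⁻ u in Icc (-1 : ℝ) 1, ∫⁻ v in cube m, g (Fin.cons u v) = ∫⁻ ξ in cube (m + 1), g ξ := by
  have hmp := (volume_preserving_piFinSuccAbove (fun _ : Fin (m + 1) => ℝ) 0).symm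
  have hQ : MeasurableSet (cube (m + 1)) := measurableSet_Icc
  have hm : Measurable fun ξ => (cube (m + 1)).indicator g ξ := hg.indicator hQ
  have hm2 : Measurable fun z : ℝ × (Fin m → ℝ) => (cube (m + 1)).indicator g
      ((MeasurableEquiv.piFinSuccAbove (fun _ : Fin (m + 1) => ℝ) 0).symm z) :=
    hm.comp hmp.measurable
  rw [← lintegral_indicator hQ, ← hmp.lintegral_comp hm, Measure.volume_eq_prod,
    lintegral_prod _ hm2.aemeasurable, ← lintegral_indicator measurableSet_Icc]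
  apply lintegral_congr
  intro u
  have e : ∀ v : Fin m → ℝ, (MeasurableEquiv.piFinSuccAbove (fun _ : Fin (m + 1) => ℝ) 0).symm
      (u, v) = Fin.cons u v := by
    intro v
    ext i
    refine Fin.cases rfl (fun i => rfl) i
  have hmem : ∀ v : Fin m → ℝ, (Fin.cons u v : Fin (m + 1) → ℝ) ∈ cube (m + 1) ↔
      u ∈ Icc (-1 : ℝ) 1 ∧ v ∈ cube m := by
    intro v
    simp only [mem_Icc, Pi.le_def, Fin.forall_fin_succ, Fin.cons_zero, Fin.cons_succ]
    tauto
  by_cases hu : u ∈ Icc (-1 : ℝ) 1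
  · rw [indicator_of_mem hu, ← lintegral_indicator measurableSet_Icc]
    apply lintegral_congr
    intro v
    rw [e]
    by_cases hv : v ∈ cube m
    · rw [indicator_of_mem hv, indicator_of_mem ((hmem v).2 ⟨hu, hv⟩)]
    · rw [indicator_of_notMem hv, indicator_of_notMem fun h => hv ((hmem v).1 h).2]
  · rw [indicator_of_notMem hu]
    symm
    rw [lintegral_eq_zero_iff']
    · refine ae_of_all _ fun v => ?_
      show (cube (m + 1)).indicator g ((MeasurableEquiv.piFinSuccAbove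
        (fun _ : Fin (m + 1) => ℝ) 0).symm (u, v)) = 0
      rw [e, indicator_of_notMem fun h => hu ((hmem v).1 h).1]
    · exact (hm2.comp measurable_prodMk_left).aemeasurable

/-- the four parts -/
lemma sections_pt {P : ℝ → Set (Fin m → ℝ) → Prop} {f : (Fin (m + 1) → ℝ) → ℂ}
    (hf : Sections P f) {u : ℝ} (hu : u ∈ Icc (-1 : ℝ) 1) (i : Fin 4) (s : ℝ≥0) :
    P u {v | v ∈ cube m ∧ s < Pool.Agent.V1178.RS.pt i (f (Fin.cons u v))} := by
  obtain ⟨h0, h1, h2, h3⟩ := hf u hu s (NNReal.coe_nonneg s)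
  have hlt : ∀ x : ℝ, s < x.toNNReal ↔ (s : ℝ) < x := fun x => Real.lt_toNNReal_iff_coe_lt
  fin_cases i
  · have e : {v | v ∈ cube m ∧ s < Pool.Agent.V1178.RS.pt 0 (f (Fin.cons u v))} =
        {v | v ∈ cube m ∧ (s : ℝ) < (f (Fin.cons u v)).re} := by
      ext v
      show (v ∈ cube m ∧ s < ((f (Fin.cons u v)).re).toNNReal) ↔ _
      rw [hlt]
      rfl
    exact e ▸ h0
  · have e : {v | v ∈ cube m ∧ s < Pool.Agent.V1178.RS.pt 1 (f (Fin.cons u v))} =
        {v | v ∈ cube m ∧ (f (Fin.cons u v)).re < -(s : ℝ)} := by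
      ext v
      show (v ∈ cube m ∧ s < (-(f (Fin.cons u v)).re).toNNReal) ↔ _
      rw [hlt, lt_neg]
      rfl
    exact e ▸ h1
  · have e : {v | v ∈ cube m ∧ s < Pool.Agent.V1178.RS.pt 2 (f (Fin.cons u v))} =
        {v | v ∈ cube m ∧ (s : ℝ) < (f (Fin.cons u v)).im} := by
      ext v
      show (v ∈ cube m ∧ s < ((f (Fin.cons u v)).im).toNNReal) ↔ _
      rw [hlt]
      rfl
    exact e ▸ h2
  · have e : {v | v ∈ cube m ∧ s < Pool.Agent.V1178.RS.pt 3 (f (Fin.cons u v))} =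
        {v | v ∈ cube m ∧ (f (Fin.cons u v)).im < -(s : ℝ)} := by
      ext v
      show (v ∈ cube m ∧ s < (-(f (Fin.cons u v)).im).toNNReal) ↔ _
      rw [hlt, lt_neg]
      rfl
    exact e ▸ h3

/-- radial sections have round superlevel sets -/
lemma radial_sections (hm : 1 ≤ m) {f : (Fin (m + 1) → ℝ) → ℂ} (hf : RadialSections f) :
    Sections (fun _ => RoundUnion 1 (4 * m + 1)) f := by
  intro u hu s hs
  obtain ⟨a, c, F, hc, hF, hF0, hfa⟩ := hf u hu
  have hre : ∀ v ∈ cube m, v ≠ c →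
      (f (Fin.cons u v)).re = a.re * F (Pool.Agent.V1178.RS.dsq c v) := by
    intro v hv hvc
    rw [hfa v hv hvc, Complex.re_mul_ofReal]
    rfl
  have him : ∀ v ∈ cube m, v ≠ c →
      (f (Fin.cons u v)).im = a.im * F (Pool.Agent.V1178.RS.dsq c v) := by
    intro v hv hvc
    rw [hfa v hv hvc, Complex.im_mul_ofReal]
    rfl
  refine ⟨Pool.Agent.V1178.RS.radial_union hm hc hF hF0 a.re hre hs, ?_,
    Pool.Agent.V1178.RS.radial_union hm hc hF hF0 a.im him hs, ?_⟩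
  · have h := Pool.Agent.V1178.RS.radial_union hm hc hF hF0 (-a.re)
      (g := fun v => -(f (Fin.cons u v)).re) (fun v hv hvc => by rw [hre v hv hvc]; ring) hs
    have e : {v | v ∈ cube m ∧ s < -(f (Fin.cons u v)).re} =
        {v | v ∈ cube m ∧ (f (Fin.cons u v)).re < -s} := by
      ext v
      show (v ∈ cube m ∧ s < -(f (Fin.cons u v)).re) ↔ _
      rw [lt_neg]
      rfl
    exact e ▸ h
  · have h := Pool.Agent.V1178.RS.radial_union hm hc hF hF0 (-a.im)
      (g := fun v => -(f (Fin.cons u v)).im) (fun v hv hvc => by rw [him v hv hvc]; ring) hs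
    have e : {v | v ∈ cube m ∧ s < -(f (Fin.cons u v)).im} =
        {v | v ∈ cube m ∧ (f (Fin.cons u v)).im < -s} := by
      ext v
      show (v ∈ cube m ∧ s < -(f (Fin.cons u v)).im) ↔ _
      rw [lt_neg]
      rfl
    exact e ▸ h

/-- **Restriction estimates for functions with round superlevel sections.** Let `d = m + 2 ≥ 3`,
`q > 2d/(d-1)` and `1/p < 1 - (d+1)/((d-1)q)` (for instance `p = q`).

1. If `p ≥ 2d/(d-1)`, there is `C` such that `‖E (f · exp (2πi ∑ l_j ξ_j²))‖_q ≤ C ‖f‖_p` for all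
   `l ∈ ℝ^(d-1)` and all `f` with radial sections.
2. If `p ≥ 2d/(d-1)`, there is `C` such that the same holds with the constant
   `C (N A)^((d-2)/(2d))` if for every `u ∈ [-1,1]` the superlevel sets of the positive and negative
   parts of the real and imaginary parts of `f(u,·)` are unions of at most `N` convex sets of
   eccentricity at most `A`.
3. Let `0 ≤ κ < 1` and `p ≥ 2d/(2 + (d-2)κ)`. There is `C` such that for all functions `k ≥ 1` of
   `u`: if for every `u` these sets `S` have perimeter at most `k(u) |S|^κ`, then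
   `‖E (f · exp (2πi ∑ l_j ξ_j²))‖_q ≤ C (∫_u k(u)^(p(d-2)/(2d)) ∫_v |f(u,v)|^p)^(1/p)`. -/
theorem result (m : ℕ) (hm : 1 ≤ m) (p q : ℝ) (hp0 : 0 < p)
    (hq : 2 * ((m : ℝ) + 2) / (m + 1) < q) (hpq : 1 / p < 1 - ((m : ℝ) + 3) / ((m + 1) * q)) :
    (2 * ((m : ℝ) + 2) / (m + 1) ≤ p → ∃ C : ℝ≥0,
      ∀ (l : Fin (m + 1) → ℝ) (f : (Fin (m + 1) → ℝ) → ℂ), Measurable f → RadialSections f →
        eLpNorm (ext fun ξ => f ξ * chirp l ξ) (ENNReal.ofReal q) volume ≤
          C * eLpNorm f (ENNReal.ofReal p) (volume.restrict (cube (m + 1)))) ∧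
    (2 * ((m : ℝ) + 2) / (m + 1) ≤ p → ∃ C : ℝ≥0, ∀ (N : ℕ) (A : ℝ), 1 ≤ N → 1 ≤ A →
      ∀ (l : Fin (m + 1) → ℝ) (f : (Fin (m + 1) → ℝ) → ℂ), Measurable f →
        Sections (fun _ => RoundUnion N A) f →
        eLpNorm (ext fun ξ => f ξ * chirp l ξ) (ENNReal.ofReal q) volume ≤
          C * ENNReal.ofReal ((N * A) ^ ((m : ℝ) / (2 * (m + 2)))) *
            eLpNorm f (ENNReal.ofReal p) (volume.restrict (cube (m + 1)))) ∧
    (∀ κ : ℝ, 0 ≤ κ → κ < 1 → 2 * ((m : ℝ) + 2) / (2 + m * κ) ≤ p → ∃ C : ℝ≥0,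
      ∀ (k : ℝ → ℝ) (l : Fin (m + 1) → ℝ) (f : (Fin (m + 1) → ℝ) → ℂ), (∀ u, 1 ≤ k u) →
        Measurable f → Sections (fun u => Perimeter κ (k u)) f →
        eLpNorm (ext fun ξ => f ξ * chirp l ξ) (ENNReal.ofReal q) volume ≤
          C * (∫⁻ u in Icc (-1 : ℝ) 1, ENNReal.ofReal (k u ^ (p * ((m : ℝ) / (2 * (m + 2))))) *
            ∫⁻ v in cube m, ‖f (Fin.cons u v)‖ₑ ^ p) ^ (1 / p)) := by
  have hm' : (1 : ℝ) ≤ m := by exact_mod_cast hm
  have hm0 : (0 : ℝ) < m := by linarith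
  have hq0 : 0 < q := by
    refine lt_trans ?_ hq
    positivity
  have hpq' : ((m : ℝ) + 1) * q < p * ((m + 1) * (q - 1) - 2) := by
    have h1 : p * ((m + 1) * q) * (1 / p) < p * ((m + 1) * q) * (1 - (m + 3) / ((m + 1) * q)) := by
      gcongr
    have e1 : p * ((m + 1) * q) * (1 / p) = (m + 1) * q := by field_simp
    have e2 : p * ((m + 1) * q) * (1 - (m + 3) / ((m + 1) * q)) =
        p * ((m + 1) * (q - 1) - 2) := by
      field_simp
      ring
    rwa [e1, e2] at h1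
  -- the third part
  have main : ∀ κ : ℝ, 0 ≤ κ → κ < 1 → 2 * ((m : ℝ) + 2) / (2 + m * κ) ≤ p → ∃ C : ℝ≥0,
      ∀ (k : ℝ → ℝ) (l : Fin (m + 1) → ℝ) (f : (Fin (m + 1) → ℝ) → ℂ), (∀ u, 1 ≤ k u) →
        Measurable f → (∀ u ∈ Icc (-1 : ℝ) 1, ∀ i, ∀ h : Fin m → ℝ, ‖h‖ ≤ 1 →
          Pool.Agent.V1178.RS.Small κ (ENNReal.ofReal (k u * ‖h‖)) h
            fun v => Pool.Agent.V1178.RS.pt i (f (Fin.cons u v))) →
        eLpNorm (ext fun ξ => f ξ * chirp l ξ) (ENNReal.ofReal q) volume ≤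
          C * (∫⁻ u in Icc (-1 : ℝ) 1, ENNReal.ofReal (k u ^ (p * ((m : ℝ) / (2 * (m + 2))))) *
            ∫⁻ v in cube m, ‖f (Fin.cons u v)‖ₑ ^ p) ^ (1 / p) := by
    intro κ hκ hκ1 hpc
    rw [div_le_iff₀ (by positivity)] at hpc
    obtain ⟨C, hC⟩ := Pool.Agent.V1178.RS.main hm hκ hκ1 hp0 hpc hq hpq'
    have hCt : (C : ℝ≥0∞) ^ (1 / q) ≠ ∞ :=
      ENNReal.rpow_ne_top_of_nonneg (by positivity) ENNReal.coe_ne_top
    refine ⟨((C : ℝ≥0∞) ^ (1 / q)).toNNReal, ?_⟩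
    rw [ENNReal.coe_toNNReal hCt]
    intro k l f hk hf hS
    have h1 := hC k f l hk hf hS
    rw [eLpNorm_eq_lintegral_rpow_enorm_toReal (by simpa using hq0) ENNReal.ofReal_ne_top,
      ENNReal.toReal_ofReal hq0.le]
    refine (ENNReal.rpow_le_rpow h1 (by positivity)).trans (le_of_eq ?_)
    rw [ENNReal.mul_rpow_of_nonneg _ _ (by positivity), ← ENNReal.rpow_mul]
    congr 2
    field_simp
  -- the second part
  have second : 2 * ((m : ℝ) + 2) / (m + 1) ≤ p → ∃ C : ℝ≥0, ∀ (N : ℕ) (A : ℝ), 1 ≤ N → 1 ≤ A →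
      ∀ (l : Fin (m + 1) → ℝ) (f : (Fin (m + 1) → ℝ) → ℂ), Measurable f →
        Sections (fun _ => RoundUnion N A) f →
        eLpNorm (ext fun ξ => f ξ * chirp l ξ) (ENNReal.ofReal q) volume ≤
          C * ENNReal.ofReal ((N * A) ^ ((m : ℝ) / (2 * (m + 2)))) *
            eLpNorm f (ENNReal.ofReal p) (volume.restrict (cube (m + 1))) := by
    intro hpm
    have hκ0 : 0 ≤ ((m : ℝ) - 1) / m := div_nonneg (by linarith) hm0.le
    have hκ1 : ((m : ℝ) - 1) / m < 1 := by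
      rw [div_lt_one hm0]
      linarith
    obtain ⟨C, hC⟩ := main (((m : ℝ) - 1) / m) hκ0 hκ1 (by
      have : 2 + (m : ℝ) * ((m - 1) / m) = m + 1 := by field_simp; ring
      rwa [this])
    obtain ⟨σ, hσ⟩ : ∃ σ : ℝ, σ = (m : ℝ) / (2 * (m + 2)) := ⟨_, rfl⟩
    have hσ0 : 0 ≤ σ := by rw [hσ]; positivity
    obtain ⟨D, hD⟩ : ∃ D : ℝ≥0∞, D = (C : ℝ≥0∞) * ENNReal.ofReal ((4 * m) ^ σ) := ⟨_, rfl⟩
    have hDt : D ≠ ∞ := by
      rw [hD]
      exact ENNReal.mul_ne_top ENNReal.coe_ne_top ENNReal.ofReal_ne_top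
    refine ⟨D.toNNReal, ?_⟩
    rw [ENNReal.coe_toNNReal hDt]
    intro N A hN hA l f hf hS
    have hN' : (1 : ℝ) ≤ N := by exact_mod_cast hN
    have hNA : 1 ≤ (N : ℝ) * A := one_le_mul_of_one_le_of_one_le hN' hA
    have hk : (1 : ℝ) ≤ 4 * m * N * A := by nlinarith
    have h1 := hC (fun _ => 4 * m * N * A) l f (fun _ => hk) hf (by
      intro u hu i h _
      exact Pool.Agent.V1178.RS.small_of_round (by linarith)
        (fun s => sections_pt hS hu i s) hm h)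
    refine h1.trans (le_of_eq ?_)
    rw [← hσ]
    have hfp : Measurable fun ξ => ‖f ξ‖ₑ ^ p := hf.enorm.pow_const p
    rw [lintegral_const_mul' _ _ ENNReal.ofReal_ne_top, cube_split hfp,
      ENNReal.mul_rpow_of_nonneg _ _ (by positivity),
      eLpNorm_eq_lintegral_rpow_enorm_toReal (by simpa using hp0) ENNReal.ofReal_ne_top,
      ENNReal.toReal_ofReal hp0.le, hD, ENNReal.ofReal_rpow_of_nonneg (by positivity)
      (by positivity), ← Real.rpow_mul (by positivity)]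
    have e1 : p * σ * (1 / p) = σ := by field_simp
    have e2 : (4 * (m : ℝ) * N * A) ^ σ = (4 * m) ^ σ * (N * A) ^ σ := by
      rw [← Real.mul_rpow (by positivity) (by positivity)]
      congr 1
      ring
    rw [e1, e2, ENNReal.ofReal_mul (by positivity)]
    ring
  refine ⟨?_, second, ?_⟩
  · intro hpm
    obtain ⟨C, hC⟩ := second hpm
    refine ⟨C * (((1 : ℕ) * (4 * (m : ℝ) + 1)) ^ ((m : ℝ) / (2 * (m + 2)))).toNNReal, ?_⟩
    intro l f hf hR
    exact hC 1 (4 * m + 1) le_rfl (by linarith) l f hf (radial_sections hm hR)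
  · intro κ hκ hκ1 hpc
    obtain ⟨C, hC⟩ := main κ hκ hκ1 hpc
    refine ⟨C, ?_⟩
    intro k l f hk hf hS
    refine hC k l f hk hf ?_
    intro u hu i h hh s
    have h1 := sections_pt hS hu i s h hh
    refine le_trans (measure_mono ?_) h1
    rintro v ⟨⟨hv1, hv2⟩, hv3⟩
    refine ⟨⟨hv1, hv2⟩, fun hiff => hv3 ?_⟩
    constructor
    · intro h4
      exact (hiff.1 ⟨hv2, h4⟩).2
    · intro h4
      exact (hiff.2 ⟨hv1, h4⟩).2

end Pool.Agent.Results.MP_b7167f_an.RoundSections
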